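import Mathlib

/-!
MP_2d1ae5_an: definitions and statements.

Smooth finite energy solutions of the Navier-Stokes equations in space close to slowly varying parallel
flows `(0, 0, w (x 0, t))`, `w` a solution of the heat equation.
-/

set_option autoImplicit false

open MeasureTheory Set
open scoped FourierTransform ContDiff RealInnerProductSpace ComplexConjugate

namespace Pool.Agent.W785.QR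

/-- space and frequency space -/
abbrev E : Type := EuclideanSpace ℝ (Fin 3)

/-- the open time interval -/
def TI : Set ℝ := Ioo (-1 : ℝ) 0

/-- Smooth finite energy solutions on `(-1, 0)`, literally as in the frozen statement. -/
structure NSSol (v : ℝ → E → E) (p : ℝ → E → ℝ) : Prop where
  smooth_v : ContDiffOn ℝ (⊤ : ℕ∞) (Function.uncurry v) (Set.Ioo (-1 : ℝ) 0 ×ˢ Set.univ)
  smooth_p : ContDiffOn ℝ (⊤ : ℕ∞) (Function.uncurry p) (Set.Ioo (-1 : ℝ) 0 ×ˢ Set.univ)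
  eqn : ∀ s ∈ Set.Ioo (-1 : ℝ) 0, ∀ x : EuclideanSpace ℝ (Fin 3),
      deriv (fun τ => v τ x) s + fderiv ℝ (v s) x (v s x)
        - ∑ i : Fin 3, fderiv ℝ (fun y => fderiv ℝ (v s) y (EuclideanSpace.basisFun (Fin 3) ℝ i)) x
            (EuclideanSpace.basisFun (Fin 3) ℝ i)
        + gradient (p s) x = 0
  div : ∀ s ∈ Set.Ioo (-1 : ℝ) 0, ∀ x : EuclideanSpace ℝ (Fin 3),
      LinearMap.trace ℝ (EuclideanSpace ℝ (Fin 3)) (fderiv ℝ (v s) x).toLinearMap = 0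
  energy : ∃ K : ℝ, ∀ s ∈ Set.Ioo (-1 : ℝ) 0, ∫⁻ x, ‖v s x‖ₑ ^ 2 ≤ ENNReal.ofReal K
  dissip : (∫⁻ s in Set.Ioo (-1 : ℝ) 0, ∫⁻ x, ‖fderiv ℝ (v s) x‖ₑ ^ 2) < ⊤

/-! ### Functions of time and frequency -/

/-- rapid decay in the frequency, uniformly in time -/
def Rap (f : ℝ → E → ℂ) : Prop :=
  (∀ t ∈ TI, Measurable (f t)) ∧ ∀ j : ℕ, ∃ C : ℝ, ∀ t ∈ TI, ∀ ξ, ‖f t ξ‖ * (1 + ‖ξ‖) ^ j ≤ C

/-- convolution in the frequency -/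
noncomputable def conv (f g : ℝ → E → ℂ) (t : ℝ) (ξ : E) : ℂ := ∫ η, f t η * g t (ξ - η)

/-- `n` derivatives in time, all with rapid decay -/
def Sm : ℕ → (ℝ → E → ℂ) → Prop
  | 0, f => Rap f ∧ ∀ ξ, ContinuousOn (fun t => f t ξ) TI
  | n + 1, f => Rap f ∧ ∃ f', Sm n f' ∧ ∀ t ∈ TI, ∀ ξ, HasDerivAt (fun s => f s ξ) (f' t ξ) t

/-- the function of time and space with Fourier transform `f`: `∫ f t ξ exp (2 π i ξ · x) dξ` -/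
noncomputable def Phi (f : ℝ → E → ℂ) (t : ℝ) (x : E) : ℂ := 𝓕⁻ (f t) x

/-- the symbol of the nonlinear term with the Leray projector -/
noncomputable def sy (ξ : E) (j k l : Fin 3) : ℂ :=
  2 * (Real.pi : ℂ) * Complex.I *
    ((if l = j then ((ξ k : ℝ) : ℂ) else 0) - ((ξ j * ξ k * ξ l / ‖ξ‖ ^ 2 : ℝ) : ℂ))

/-- Fourier transform of the `j`-th component of the projection of `u · ∇ u` -/
noncomputable def nl (a : Fin 3 → ℝ → E → ℂ) (j : Fin 3) (t : ℝ) (ξ : E) : ℂ :=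
  ∑ k, ∑ l, sy ξ j k l * conv (a k) (a l) t ξ

/-- Fourier transform of the pressure -/
noncomputable def phat (a : Fin 3 → ℝ → E → ℂ) (t : ℝ) (ξ : E) : ℂ :=
  -∑ k, ∑ l, ((ξ k * ξ l / ‖ξ‖ ^ 2 : ℝ) : ℂ) * conv (a k) (a l) t ξ

/-- Fourier transforms of solutions of the Navier-Stokes equations. -/
structure Mild (a : Fin 3 → ℝ → E → ℂ) : Prop where
  rap : ∀ j, Rap (a j)
  cont : ∀ j ξ, ContinuousOn (fun t => a j t ξ) TI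
  ode : ∀ j, ∀ t ∈ TI, ∀ ξ, HasDerivAt (fun s => a j s ξ)
    (-((4 * Real.pi ^ 2 * ‖ξ‖ ^ 2 : ℝ) : ℂ) * a j t ξ - nl a j t ξ) t
  herm : ∀ j, ∀ t ∈ TI, ∀ ξ, a j t (-ξ) = conj (a j t ξ)
  divfree : ∀ t ∈ TI, ∀ ξ : E, ∑ j, ((ξ j : ℝ) : ℂ) * a j t ξ = 0

/-- velocity and pressure -/
noncomputable def vel (a : Fin 3 → ℝ → E → ℂ) (t : ℝ) (x : E) : E :=
  WithLp.toLp 2 fun j => (Phi (a j) t x).re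

noncomputable def pres (a : Fin 3 → ℝ → E → ℂ) (t : ℝ) (x : E) : ℝ := (Phi (phat a) t x).re

/-! ### Regularity -/

def S_mono : Prop := ∀ n f, Sm (n + 1) f → Sm n f
def S_add : Prop := ∀ n f g, Sm n f → Sm n g → Sm n fun t ξ => f t ξ + g t ξ
def S_symb : Prop := ∀ n f (σ : E → ℂ), Measurable σ →
  (∃ (k : ℕ) (C : ℝ), ∀ ξ, ‖σ ξ‖ ≤ C * (1 + ‖ξ‖) ^ k) → Sm n f → Sm n fun t ξ => σ ξ * f t ξ
def S_conv : Prop := ∀ n f g, Sm n f → Sm n g → Sm n (conv f g)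

/-- derivatives of `Phi f` -/
def S_dphi : Prop :=
  (∀ f f' : ℝ → E → ℂ, Rap f → Rap f' →
    (∀ t ∈ TI, ∀ ξ, HasDerivAt (fun s => f s ξ) (f' t ξ) t) →
    ∀ t ∈ TI, ∀ x, HasDerivAt (fun s => Phi f s x) (Phi f' t x) t) ∧
  ∀ f : ℝ → E → ℂ, Rap f → ∀ t ∈ TI, ∀ x, DifferentiableAt ℝ (Phi f t) x ∧
    ∀ h : E, fderiv ℝ (Phi f t) x h
      = ∑ j, (h j : ℂ) * Phi (fun t ξ => 2 * (Real.pi : ℂ) * Complex.I * ((ξ j : ℝ) : ℂ) * f t ξ) t x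

/-- smoothness of `Phi f` -/
def S_phi : Prop := ∀ f : ℝ → E → ℂ, (∀ n, Sm n f) →
  ContDiffOn ℝ (⊤ : ℕ∞) (Function.uncurry (Phi f)) (TI ×ˢ univ)

def S_prod : Prop := ∀ f g : ℝ → E → ℂ, Rap f → Rap g → ∀ t ∈ TI, ∀ x,
  Phi (conv f g) t x = Phi f t x * Phi g t x

def S_real : Prop := ∀ f : ℝ → E → ℂ, (∀ t ∈ TI, ∀ ξ, f t (-ξ) = conj (f t ξ)) →
  ∀ t ∈ TI, ∀ x, (Phi f t x).im = 0

def S_l2 : Prop := ∀ f : ℝ → E → ℂ, Rap f → ∃ K : ℝ, ∀ t ∈ TI,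
  ∫⁻ x, ‖Phi f t x‖ₑ ^ 2 ≤ ENNReal.ofReal K

def S_boot : Prop := ∀ a, Mild a → (∀ n j, Sm n (a j)) ∧ ∀ n, Sm n (phat a)

def S_reg : Prop := ∀ a, Mild a → NSSol (vel a) (pres a)

/-! ### Existence -/

/-- initial data (at time `-1`) in frequency space -/
structure Data (A0 : Fin 3 → E → ℂ) (Λ : ℝ) : Prop where
  meas : ∀ j, Measurable (A0 j)
  bdd : ∃ B : ℝ, ∀ j ξ, ‖A0 j ξ‖ ≤ B
  supp : ∃ R : ℝ, ∀ j ξ, R < ‖ξ‖ → A0 j ξ = 0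
  herm : ∀ j ξ, A0 j (-ξ) = conj (A0 j ξ)
  divfree : ∀ ξ : E, ∑ j, ((ξ j : ℝ) : ℂ) * A0 j ξ = 0
  mass : ∀ j, ∫ ξ, ‖A0 j ξ‖ ≤ Λ

/-- the solution of the heat equation with initial data `c A0` -/
noncomputable def heat (c : ℝ) (A0 : Fin 3 → E → ℂ) (j : Fin 3) (t : ℝ) (ξ : E) : ℂ :=
  ((c * Real.exp (-(4 * Real.pi ^ 2 * (t + 1) * ‖ξ‖ ^ 2)) : ℝ) : ℂ) * A0 j ξ

/-- the nonlinear term of the solution of the heat equation has mass `≤ ε` -/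
def SmallRes (A0 : Fin 3 → E → ℂ) (ε : ℝ) : Prop :=
  ∃ N : E → ℝ, Integrable N ∧ ∫ ξ, N ξ ≤ ε ∧
    ∀ j, ∀ c ∈ Icc (0 : ℝ) 1, ∀ t ∈ Icc (-1 : ℝ) 0, ∀ ξ, ‖nl (heat c A0) j t ξ‖ ≤ N ξ

def S_exist : Prop := ∀ Λ : ℝ, 0 < Λ → ∃ C : ℝ, 0 < C ∧ ∃ ε1 : ℝ, 0 < ε1 ∧
  ∀ A0, Data A0 Λ → ∀ ε : ℝ, 0 < ε → ε ≤ ε1 → SmallRes A0 ε →
  ∃ a : ℝ → Fin 3 → ℝ → E → ℂ,
    (∀ c ∈ Icc (0 : ℝ) 1, Mild (a c)) ∧
    (∀ c ∈ Icc (0 : ℝ) 1, ∀ t ∈ TI, ∀ j, ∫ ξ, ‖a c j t ξ - heat c A0 j t ξ‖ ≤ C * ε) ∧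
    ∀ c ∈ Icc (0 : ℝ) 1, ∀ η : ℝ, 0 < η → ∃ δ : ℝ, 0 < δ ∧ ∀ c' ∈ Icc (0 : ℝ) 1, |c' - c| < δ →
      ∀ t ∈ TI, ∀ j, ∫ ξ, ‖a c' j t ξ - a c j t ξ‖ ≤ η

/-! ### The data -/

/-- bounded even solutions of the heat equation on the line -/
noncomputable def lin (D : ℕ) (q : ℕ → ℝ) (x t : ℝ) : ℝ :=
  ∑ m ∈ Finset.Icc 1 D, q m * Real.exp (-(m * (t + 1))) * Real.cos (Real.sqrt m * x)

def S_data : Prop := ∀ (D : ℕ) (q : ℕ → ℝ), ∃ Λ : ℝ, 0 < Λ ∧ ∃ C : ℝ, 0 < C ∧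
  ∀ ε : ℝ, 0 < ε → ε ≤ 1 / 100 → ∃ A0 : Fin 3 → E → ℂ, Data A0 Λ ∧ SmallRes A0 (C * ε) ∧
    ∀ c ∈ Icc (0 : ℝ) 1, ∀ t ∈ Icc (-1 : ℝ) 0, ∀ x : E, ‖x‖ ≤ 1 → ∀ j,
      ‖Phi (heat c A0 j) t x - (if j = 2 then ((c * lin D q (x 0) t : ℝ) : ℂ) else 0)‖ ≤ C * ε

/-- normalised indicator function of the ball of radius `ε` -/
noncomputable def phi (ε : ℝ) (ξ : E) : ℝ :=
  (Metric.ball (0 : E) ε).indicator (fun _ => (volume.real (Metric.ball (0 : E) ε))⁻¹) ξ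

/-- the frequencies -/
noncomputable def zeta (m : ℕ) : E := WithLp.toLp 2 ![Real.sqrt m / (2 * Real.pi), 0, 0]

/-- sum of bumps near the frequencies `± zeta m`, without sign -/
noncomputable def bumps (D : ℕ) (q : ℕ → ℝ) (ε : ℝ) (ξ : E) : ℝ :=
  ∑ m ∈ Finset.Icc 1 D, q m / 2 * (phi ε (ξ - zeta m) + phi ε (ξ + zeta m))

/-- the initial data: slowly varying parallel flow, projected on divergence free fields -/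
noncomputable def dat (D : ℕ) (q : ℕ → ℝ) (ε : ℝ) (j : Fin 3) (ξ : E) : ℂ :=
  ((bumps D q ε ξ * ((if j = 2 then 1 else 0) - ξ j * ξ 2 / ‖ξ‖ ^ 2) : ℝ) : ℂ)

def S_dat1 : Prop := ∀ (D : ℕ) (q : ℕ → ℝ), ∃ Λ : ℝ, 0 < Λ ∧ ∀ ε : ℝ, 0 < ε → ε ≤ 1 / 100 →
  Data (dat D q ε) Λ

def S_dat2 : Prop := ∀ (D : ℕ) (q : ℕ → ℝ), ∃ C : ℝ, 0 < C ∧ ∀ ε : ℝ, 0 < ε → ε ≤ 1 / 100 →
  SmallRes (dat D q ε) (C * ε)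

def S_dat3 : Prop := ∀ (D : ℕ) (q : ℕ → ℝ), ∃ C : ℝ, 0 < C ∧ ∀ ε : ℝ, 0 < ε → ε ≤ 1 / 100 →
  ∀ c ∈ Icc (0 : ℝ) 1, ∀ t ∈ Icc (-1 : ℝ) 0, ∀ x : E, ‖x‖ ≤ 1 → ∀ j,
    ‖Phi (heat c (dat D q ε) j) t x - (if j = 2 then ((c * lin D q (x 0) t : ℝ) : ℂ) else 0)‖
      ≤ C * ε

/-! ### Solutions of the heat equation -/

/-- the times -/
noncomputable def tn (n : ℕ) : ℝ := -(1 / 2 : ℝ) ^ (n + 1)

def S_lin : Prop := ∀ K : ℝ, 1 ≤ K → ∃ (D : ℕ) (q : ℕ → ℝ), K ≤ lin D q 0 0 ∧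
  (∀ (n : ℕ) (x : ℝ), |x| ≤ 1 → |lin D q x (tn n)| ≤ 4 * K) ∧
  ∀ (n : ℕ) (x : ℝ), |x| ≤ 1 → 1 / K ^ 3 ≤ |x| → |lin D q x (tn n)| ≤ 1

/-- bound of a solution of the heat equation near the line `x = 0` by the values of the holomorphic
function of time `exp`-polynomial on the line `x = 0` -/
def S_cauchy : Prop := ∀ (D : ℕ) (q : ℕ → ℂ) (t ρ η : ℝ), 0 < ρ →
  (∀ z : ℂ, ‖z - t‖ ≤ ρ → ‖∑ m ∈ Finset.Icc 1 D, q m * Complex.exp (-(m * (z + 1)))‖ ≤ η) →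
  ∀ x : ℝ, |x| ≤ 1 →
    ‖∑ m ∈ Finset.Icc 1 D, q m * Complex.exp (-(m * ((t : ℂ) + 1)))
      * ((Real.cos (Real.sqrt m * x) : ℝ) : ℂ)‖ ≤ η * Real.exp (1 / ρ)

/-- approximation of entire functions near `[-1, 0]` -/
def S_runge : Prop := ∀ F : ℂ → ℂ, Differentiable ℂ F → ∀ η : ℝ, 0 < η →
  ∃ (D : ℕ) (q : ℕ → ℂ), ∀ z : ℂ, -1 - 1 / 20 ≤ z.re → z.re ≤ 1 / 20 → |z.im| ≤ 1 / 20 →
    ‖F z - ∑ m ∈ Finset.Icc 1 D, q m * Complex.exp (-(m * (z + 1)))‖ ≤ η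

/-- entire functions close to a jump -/
def S_jump : Prop := ∀ (a d η : ℝ), 0 < d → 0 < η → ∃ θ : ℂ → ℂ, Differentiable ℂ θ ∧
  (∀ z : ℂ, z.re ≤ a - d → |z.im| ≤ d / 2 → ‖θ z‖ ≤ η) ∧
  ∀ z : ℂ, a + d ≤ z.re → |z.im| ≤ d / 2 → ‖1 - θ z‖ ≤ η

/-- odd powers of the cosine -/
def S_cos : Prop := ∀ J : ℕ, ∃ (n : ℕ) (β : ℕ → ℝ), ∀ x : ℝ,
  Real.cos x ^ (2 * J + 1) = ∑ k ∈ Finset.range n, β k * Real.cos ((2 * k + 1) * x)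

/-! ### Pieces of the existence proof -/

/-- amplitude and time -/
abbrev KK : Type := ↥(Icc (0 : ℝ) 1) × ↥(Icc (-1 : ℝ) 0)

/-- the Banach algebra of continuous functions of amplitude and time -/
abbrev A : Type := C(KK, ℂ)

/-- the operators `f ↦ ∫_{-1}^t exp (-k (t - s)) f (s) ds` -/
structure IsT (T : ℝ → A →L[ℂ] A) : Prop where
  eq : ∀ (k : ℝ) (f : A) (p : KK), T k f p
    = ∫ s in (-1 : ℝ)..p.2, ((Real.exp (-(k * (p.2 - s))) : ℝ) : ℂ)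
        * f (p.1, projIcc (-1 : ℝ) 0 (by norm_num) s)
  bound : ∀ k : ℝ, 0 < k → ∀ f, ‖T k f‖ ≤ k⁻¹ * ‖f‖
  bound' : ∀ k : ℝ, 0 ≤ k → ∀ f, ‖T k f‖ ≤ ‖f‖
  lip : ∀ k k' : ℝ, 0 ≤ k → 0 ≤ k' → ∀ f, ‖T k f - T k' f‖ ≤ |k - k'| * ‖f‖

def S_T : Prop := ∃ T : ℝ → A →L[ℂ] A, IsT T

def S_bound : Prop := ∀ (f f0 h : E → ℝ) (B : ℝ), 0 ≤ B → Integrable f → Measurable f →
  (∀ ξ, 0 ≤ f ξ) → Integrable h → Measurable h → (∀ ξ, 0 ≤ h ξ) → ∫ ξ, h ξ ≤ 1 / 2 →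
  (∀ᵐ ξ, f0 ξ ≤ B / 2) → (∀ᵐ ξ, f ξ ≤ f0 ξ + ∫ η, h η * f (ξ - η)) → ∀ᵐ ξ, f ξ ≤ B

def S_decay : Prop := ∀ (f V0 : E → ℝ) (C B : ℝ), Integrable f → Measurable f → (∀ ξ, 0 ≤ f ξ) →
  (∀ᵐ ξ, f ξ ≤ B) → Measurable V0 → (∀ ξ, 0 ≤ V0 ξ ∧ V0 ξ ≤ B) → (∃ R : ℝ, ∀ ξ, R < ‖ξ‖ → V0 ξ = 0) →
  0 ≤ C → (∀ᵐ ξ, f ξ ≤ V0 ξ + C / (1 + ‖ξ‖) * ∫ η, f η * f (ξ - η)) →
  ∀ j : ℕ, ∃ Cj : ℝ, (∀ᵐ ξ, f ξ * (1 + ‖ξ‖) ^ j ≤ Cj) ∧ Integrable fun ξ => f ξ * (1 + ‖ξ‖) ^ j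

/-! ### The family of solutions, the end -/

def S_fam : Prop := ∀ (D : ℕ) (q : ℕ → ℝ) (η : ℝ), 0 < η →
  ∃ (v : ℝ → ℝ → E → E) (p : ℝ → ℝ → E → ℝ),
    (∀ c ∈ Icc (0 : ℝ) 1, NSSol (v c) (p c)) ∧
    (∀ c ∈ Icc (0 : ℝ) 1, ∀ t ∈ TI, ∀ x, ‖x‖ ≤ 1 →
      ‖v c t x - WithLp.toLp 2 (fun j => if j = 2 then c * lin D q (x 0) t else 0)‖ ≤ η) ∧
    ∀ c ∈ Icc (0 : ℝ) 1, ∀ η' : ℝ, 0 < η' → ∃ δ : ℝ, 0 < δ ∧ ∀ c' ∈ Icc (0 : ℝ) 1, |c' - c| < δ →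
      ∀ t ∈ TI, ∀ x, ‖v c' t x - v c t x‖ ≤ η'

/-- the negation of the frozen statement, for the times `tn`, `M = 20` and `δ = 1` -/
def S_end : Prop := ∀ C : ℝ, ∃ (v : ℝ → E → E) (p : ℝ → E → ℝ), NSSol v p ∧
  (⨆ n, eLpNorm (v (tn n)) 3 (volume.restrict (Metric.ball (0 : E) 1))) = ENNReal.ofReal 20 ∧
  ¬ ∃ r > 0, ∀ (s : ℝ) (x : E), s ∈ Set.Ioo (-r) 0 → ‖x‖ < r → ‖v s x‖ ≤ C

end Pool.Agent.W785.QR
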