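import Mathlib
import Pool.Agent.W785.QR.Stm

set_option autoImplicit false

open MeasureTheory Set
open scoped FourierTransform ContDiff RealInnerProductSpace ComplexConjugate Convolution

namespace Pool.Agent.W785.QR

noncomputable section

/-- the Banach algebra of continuous functions of amplitude and time (irreducible copy) -/
def AA : Type := C(KK, ℂ)

instance : NormedCommRing AA := inferInstanceAs (NormedCommRing C(KK, ℂ))
instance : NormedAlgebra ℂ AA := inferInstanceAs (NormedAlgebra ℂ C(KK, ℂ))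
instance : CompleteSpace AA := inferInstanceAs (CompleteSpace C(KK, ℂ))

namespace AA

/-- the element given by a continuous function -/
def mk (f : KK → ℂ) (hf : Continuous f) : AA := (⟨f, hf⟩ : C(KK, ℂ))

/-- values -/
def val (f : AA) (p : KK) : ℂ := (show C(KK, ℂ) from f) p

@[simp] theorem val_mk (f : KK → ℂ) (hf : Continuous f) (p : KK) : (mk f hf).val p = f p := rfl

theorem val_cont (f : AA) : Continuous f.val := ContinuousMap.continuous (show C(KK, ℂ) from f)

@[ext] theorem ext {f g : AA} (h : ∀ p, f.val p = g.val p) : f = g :=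
  ContinuousMap.ext (f := (show C(KK, ℂ) from f)) (g := (show C(KK, ℂ) from g)) h

@[simp] theorem val_add (f g : AA) (p : KK) : (f + g).val p = f.val p + g.val p := rfl
@[simp] theorem val_sub (f g : AA) (p : KK) : (f - g).val p = f.val p - g.val p := rfl
@[simp] theorem val_neg (f : AA) (p : KK) : (-f).val p = -f.val p := rfl
@[simp] theorem val_mul (f g : AA) (p : KK) : (f * g).val p = f.val p * g.val p := rfl
@[simp] theorem val_smul (c : ℂ) (f : AA) (p : KK) : (c • f).val p = c * f.val p := rfl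
@[simp] theorem val_zero (p : KK) : (0 : AA).val p = 0 := rfl
@[simp] theorem val_one (p : KK) : (1 : AA).val p = 1 := rfl

theorem norm_le {f : AA} {C : ℝ} (hC : 0 ≤ C) : ‖f‖ ≤ C ↔ ∀ p, ‖f.val p‖ ≤ C :=
  ContinuousMap.norm_le (f := (show C(KK, ℂ) from f)) hC

theorem val_le (f : AA) (p : KK) : ‖f.val p‖ ≤ ‖f‖ :=
  (norm_le (norm_nonneg f)).1 le_rfl p

/-- evaluation as a continuous linear map -/
def ev (p : KK) : AA →L[ℂ] ℂ :=
  LinearMap.mkContinuous
    { toFun := fun f => f.val p
      map_add' := fun f g => rfl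
      map_smul' := fun c f => rfl } 1 fun f => by rw [one_mul]; exact val_le f p

@[simp] theorem ev_apply (p : KK) (f : AA) : ev p f = f.val p := rfl

@[simp] theorem val_sum {ι : Type} (s : Finset ι) (f : ι → AA) (p : KK) :
    (∑ i ∈ s, f i).val p = ∑ i ∈ s, (f i).val p := by
  have := map_sum (ev p) f s
  simpa only [ev_apply] using this

end AA

abbrev A3 : Type := Fin 3 → AA
abbrev A33 : Type := Fin 3 → Fin 3 → AA

/-- the operators `f ↦ ∫_{-1}^t exp (-k (t - s)) f (s) ds`, for `k ≥ 0` -/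
structure IsT' (T : ℝ → AA →L[ℂ] AA) : Prop where
  eq : ∀ k : ℝ, 0 ≤ k → ∀ (f : AA) (p : KK), (T k f).val p
    = ∫ s in (-1 : ℝ)..p.2, ((Real.exp (-(k * (p.2 - s))) : ℝ) : ℂ)
        * f.val (p.1, projIcc (-1 : ℝ) 0 (by norm_num) s)
  bound : ∀ k : ℝ, 0 < k → ∀ f, ‖T k f‖ ≤ k⁻¹ * ‖f‖
  bound' : ∀ k : ℝ, 0 ≤ k → ∀ f, ‖T k f‖ ≤ ‖f‖
  lip : ∀ k k' : ℝ, 0 ≤ k → 0 ≤ k' → ∀ f, ‖T k f - T k' f‖ ≤ |k - k'| * ‖f‖

theorem exists_T (h : S_T) : ∃ T : ℝ → AA →L[ℂ] AA, IsT' T := by
  obtain ⟨T, hT⟩ := h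
  refine ⟨fun k => LinearMap.mkContinuous
    { toFun := fun f : AA => (T |k| (show C(KK, ℂ) from f) : C(KK, ℂ))
      map_add' := fun f g => (T |k|).map_add _ _
      map_smul' := fun c f => (T |k|).map_smul _ _ } 1 fun f => ?_, ?_⟩
  · rw [one_mul]; exact hT.bound' _ (abs_nonneg k) f
  · refine ⟨fun k hk f p => ?_, fun k hk f => ?_, fun k hk f => ?_, fun k k' hk hk' f => ?_⟩
    · have := hT.eq |k| f p
      rw [abs_of_nonneg hk] at this
      show (T |k| (show C(KK, ℂ) from f)) p = _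
      rw [abs_of_nonneg hk]
      exact this
    · have := hT.bound k hk f
      show ‖(T |k| (show C(KK, ℂ) from f))‖ ≤ _
      rw [abs_of_pos hk]
      exact this
    · have := hT.bound' k hk f
      show ‖(T |k| (show C(KK, ℂ) from f))‖ ≤ _
      rw [abs_of_nonneg hk]
      exact this
    · have := hT.lip k k' hk hk' f
      show ‖(T |k| (show C(KK, ℂ) from f)) - (T |k'| (show C(KK, ℂ) from f))‖ ≤ _
      rw [abs_of_nonneg hk, abs_of_nonneg hk']
      exact this

end

end Pool.Agent.W785.QR
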