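import Mathlib
import Pool.Agent.W785.QR.Ex0

set_option autoImplicit false

open MeasureTheory Set
open scoped FourierTransform ContDiff RealInnerProductSpace ComplexConjugate Convolution

namespace Pool.Agent.W785.QR

noncomputable section

/-- tensor product -/
def tens : A3 →L[ℂ] A3 →L[ℂ] A33 :=
  LinearMap.mkContinuous₂
    (LinearMap.mk₂ ℂ (fun (f g : A3) => (fun k l => f k * g l : A33))
      (by intro f f' g; ext k l p; simp [add_mul])
      (by intro c f g; ext k l p; simp [mul_assoc])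
      (by intro f g g'; ext k l p; simp [mul_add])
      (by intro c f g; ext k l p; simp only [Pi.smul_apply, AA.val_mul, AA.val_smul]; ring)) 1
    (by
      intro f g
      rw [one_mul]
      refine (pi_norm_le_iff_of_nonneg (by positivity)).2 fun k => ?_
      refine (pi_norm_le_iff_of_nonneg (by positivity)).2 fun l => ?_
      calc ‖f k * g l‖ ≤ ‖f k‖ * ‖g l‖ := norm_mul_le _ _
        _ ≤ ‖f‖ * ‖g‖ := mul_le_mul (norm_le_pi_norm f k) (norm_le_pi_norm g l)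
            (norm_nonneg _) (norm_nonneg _))

@[simp] theorem tens_apply (f g : A3) (k l : Fin 3) : tens f g k l = f k * g l := rfl

theorem tens_norm (f g : A3) : ‖tens f g‖ ≤ ‖f‖ * ‖g‖ := by
  refine (pi_norm_le_iff_of_nonneg (by positivity)).2 fun k => ?_
  refine (pi_norm_le_iff_of_nonneg (by positivity)).2 fun l => ?_
  calc ‖f k * g l‖ ≤ ‖f k‖ * ‖g l‖ := norm_mul_le _ _
    _ ≤ ‖f‖ * ‖g‖ := mul_le_mul (norm_le_pi_norm f k) (norm_le_pi_norm g l)
        (norm_nonneg _) (norm_nonneg _)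

/-! the symbol -/

theorem abs_coord_le (ξ : E) (j : Fin 3) : |ξ j| ≤ ‖ξ‖ := by
  have := PiLp.norm_apply_le ξ j
  simpa using this

theorem tri_le (ξ : E) (j k l : Fin 3) : |ξ j * ξ k * ξ l / ‖ξ‖ ^ 2| ≤ ‖ξ‖ := by
  by_cases h : ξ = 0
  · subst h; simp
  · have h0 : 0 < ‖ξ‖ := norm_pos_iff.2 h
    rw [abs_div, abs_mul, abs_mul, abs_of_pos (pow_pos h0 2), div_le_iff₀ (pow_pos h0 2)]
    have h1 := abs_coord_le ξ j
    have h2 := abs_coord_le ξ k
    have h3 := abs_coord_le ξ l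
    calc |ξ j| * |ξ k| * |ξ l| ≤ ‖ξ‖ * ‖ξ‖ * ‖ξ‖ := by gcongr
      _ = ‖ξ‖ * ‖ξ‖ ^ 2 := by ring

theorem sy_norm (ξ : E) (j k l : Fin 3) : ‖sy ξ j k l‖ ≤ 4 * Real.pi * ‖ξ‖ := by
  unfold sy
  rw [norm_mul, norm_mul, norm_mul, Complex.norm_I, Complex.norm_real, Real.norm_eq_abs,
    abs_of_pos Real.pi_pos, mul_one]
  have h1 : ‖(if l = j then ((ξ k : ℝ) : ℂ) else 0)
      - ((ξ j * ξ k * ξ l / ‖ξ‖ ^ 2 : ℝ) : ℂ)‖ ≤ ‖ξ‖ + ‖ξ‖ := by
    refine (norm_sub_le _ _).trans (add_le_add ?_ ?_)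
    · split_ifs
      · rw [Complex.norm_real, Real.norm_eq_abs]; exact abs_coord_le ξ k
      · simp
    · rw [Complex.norm_real, Real.norm_eq_abs]; exact tri_le ξ j k l
  have h2 : ‖(2 : ℂ)‖ = 2 := by simp
  rw [h2]
  have := Real.pi_pos
  calc 2 * Real.pi * _ ≤ 2 * Real.pi * (‖ξ‖ + ‖ξ‖) := by gcongr
    _ = 4 * Real.pi * ‖ξ‖ := by ring

theorem sy_meas (j k l : Fin 3) : Measurable fun ξ : E => sy ξ j k l := by
  unfold sy
  have h0 : ∀ i : Fin 3, Measurable fun ξ : E => ξ i := fun i => by fun_prop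
  have h1 : Measurable fun ξ : E => (if l = j then ((ξ k : ℝ) : ℂ) else 0) := by
    split_ifs
    · exact Complex.measurable_ofReal.comp (h0 k)
    · exact measurable_const
  have h2 : Measurable fun ξ : E => ((ξ j * ξ k * ξ l / ‖ξ‖ ^ 2 : ℝ) : ℂ) :=
    Complex.measurable_ofReal.comp
      ((((h0 j).mul (h0 k)).mul (h0 l)).div (measurable_norm.pow_const 2))
  exact (h1.sub h2).const_mul _

theorem sy_neg (ξ : E) (j k l : Fin 3) : sy (-ξ) j k l = conj (sy ξ j k l) := by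
  unfold sy
  have h2 : (starRingEnd ℂ) (2 : ℂ) = 2 := by
    rw [show (2 : ℂ) = ((2 : ℝ) : ℂ) by norm_num, Complex.conj_ofReal]
  simp only [map_mul, map_sub, Complex.conj_I, Complex.conj_ofReal, PiLp.neg_apply, norm_neg, h2]
  have h3 : conj (if l = j then ((ξ k : ℝ) : ℂ) else 0) = if l = j then ((ξ k : ℝ) : ℂ) else 0 := by
    split_ifs
    · exact Complex.conj_ofReal _
    · exact map_zero _
  rw [h3]
  split_ifs
  · push_cast; ring
  · push_cast; ring

/-- the symbol maps to divergence free fields -/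
theorem sy_div (ξ : E) (k l : Fin 3) : ∑ j, ((ξ j : ℝ) : ℂ) * sy ξ j k l = 0 := by
  by_cases h : ξ = 0
  · subst h; simp
  · have h0 : (‖ξ‖ : ℝ) ^ 2 ≠ 0 := pow_ne_zero 2 (norm_ne_zero_iff.2 h)
    have hn : ‖ξ‖ ^ 2 = ∑ j, ξ j ^ 2 := by
      rw [EuclideanSpace.norm_sq_eq]; simp
    unfold sy
    have e1 : ∑ j, ((ξ j : ℝ) : ℂ) * (2 * (Real.pi : ℂ) * Complex.I *
        ((if l = j then ((ξ k : ℝ) : ℂ) else 0) - ((ξ j * ξ k * ξ l / ‖ξ‖ ^ 2 : ℝ) : ℂ)))
        = 2 * (Real.pi : ℂ) * Complex.I * (((ξ l * ξ k : ℝ) : ℂ)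
          - (((∑ j, ξ j ^ 2) * (ξ k * ξ l / ‖ξ‖ ^ 2) : ℝ) : ℂ)) := by
      rw [Finset.sum_mul]
      push_cast
      simp only [mul_sub, Finset.sum_sub_distrib, mul_ite, mul_zero, Finset.sum_ite_eq,
        Finset.mem_univ, if_true, Finset.mul_sum]
      congr 1
      · ring
      · refine Finset.sum_congr rfl fun j _ => ?_
        ring
    rw [e1, ← hn, mul_div_cancel₀ _ h0]
    push_cast
    ring

end

end Pool.Agent.W785.QR
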