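import Mathlib
import Pool.Agent.W785.QR.Ex1

set_option autoImplicit false

open MeasureTheory Set
open scoped FourierTransform ContDiff RealInnerProductSpace ComplexConjugate Convolution

namespace Pool.Agent.W785.QR

noncomputable section

/-- `4 π² |ξ|²` -/
def ks (ξ : E) : ℝ := 4 * Real.pi ^ 2 * ‖ξ‖ ^ 2

theorem ks_nonneg (ξ : E) : 0 ≤ ks ξ := by unfold ks; positivity

theorem ks_cont : Continuous ks := by unfold ks; fun_prop

/-- contraction with the symbol and integration in time -/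
def ker (T : ℝ → AA →L[ℂ] AA) (μ : ℝ) (ξ : E) : A33 →L[ℂ] A3 :=
  ContinuousLinearMap.pi fun j => ∑ k, ∑ l, sy ξ j k l •
    (T (ks ξ + μ)).comp ((ContinuousLinearMap.proj (R := ℂ) (φ := fun _ : Fin 3 => AA) l).comp
      (ContinuousLinearMap.proj (R := ℂ) (φ := fun _ : Fin 3 => (Fin 3 → AA)) k))

theorem ker_apply (T : ℝ → AA →L[ℂ] AA) (μ : ℝ) (ξ : E) (F : A33) (j : Fin 3) :
    ker T μ ξ F j = ∑ k, ∑ l, sy ξ j k l • T (ks ξ + μ) (F k l) := by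
  simp only [ker, ContinuousLinearMap.coe_pi', _root_.sum_apply,
    _root_.smul_apply, ContinuousLinearMap.comp_apply, ContinuousLinearMap.proj_apply]

theorem ker_apply' (T : ℝ → AA →L[ℂ] AA) (μ : ℝ) (ξ : E) (F : A33) (j : Fin 3) :
    ker T μ ξ F j = T (ks ξ + μ) (∑ k, ∑ l, sy ξ j k l • F k l) := by
  rw [ker_apply]
  simp only [map_sum, map_smul]

theorem sum_sy_norm (ξ : E) (F : A33) (j : Fin 3) :
    ‖∑ k, ∑ l, sy ξ j k l • F k l‖ ≤ 36 * Real.pi * ‖ξ‖ * ‖F‖ := by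
  have h1 : ∀ k l, ‖sy ξ j k l • F k l‖ ≤ 4 * Real.pi * ‖ξ‖ * ‖F‖ := by
    intro k l
    rw [norm_smul]
    have hF : ‖F k l‖ ≤ ‖F‖ := (norm_le_pi_norm (F k) l).trans (norm_le_pi_norm F k)
    exact mul_le_mul (sy_norm ξ j k l) hF (norm_nonneg _)
      (by have := Real.pi_pos; positivity)
  calc ‖∑ k, ∑ l, sy ξ j k l • F k l‖ ≤ ∑ k : Fin 3, ∑ l : Fin 3, ‖sy ξ j k l • F k l‖ :=
        (norm_sum_le _ _).trans (Finset.sum_le_sum fun k _ => norm_sum_le _ _)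
    _ ≤ ∑ k : Fin 3, ∑ l : Fin 3, 4 * Real.pi * ‖ξ‖ * ‖F‖ :=
        Finset.sum_le_sum fun k _ => Finset.sum_le_sum fun l _ => h1 k l
    _ = 36 * Real.pi * ‖ξ‖ * ‖F‖ := by
        simp only [Finset.sum_const, Finset.card_univ, Fintype.card_fin, nsmul_eq_mul]
        push_cast; ring

variable {T : ℝ → AA →L[ℂ] AA}

theorem ker_norm1 (hT : IsT' T) {μ : ℝ} (hμ : 0 < μ) (ξ : E) (F : A33) :
    ‖ker T μ ξ F‖ ≤ 9 / Real.sqrt μ * ‖F‖ := by
  refine (pi_norm_le_iff_of_nonneg (by positivity)).2 fun j => ?_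
  rw [ker_apply']
  have hk : 0 < ks ξ + μ := by have := ks_nonneg ξ; linarith
  refine (hT.bound _ hk _).trans ?_
  have h1 := sum_sy_norm ξ F j
  have h2 : (ks ξ + μ)⁻¹ * (36 * Real.pi * ‖ξ‖ * ‖F‖) ≤ 9 / Real.sqrt μ * ‖F‖ := by
    have hs : 0 < Real.sqrt μ := Real.sqrt_pos.2 hμ
    have hs2 : Real.sqrt μ ^ 2 = μ := Real.sq_sqrt hμ.le
    rw [inv_mul_eq_div, div_le_iff₀ hk, div_mul_eq_mul_div, div_mul_eq_mul_div, le_div_iff₀ hs]
    have h3 : 4 * Real.pi * ‖ξ‖ * Real.sqrt μ ≤ ks ξ + μ := by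
      unfold ks
      rw [← hs2]
      nlinarith [sq_nonneg (2 * Real.pi * ‖ξ‖ - Real.sqrt (Real.sqrt μ ^ 2)), hs2,
        Real.sqrt_sq hs.le]
    nlinarith [norm_nonneg F, mul_le_mul_of_nonneg_left h3 (norm_nonneg F)]
  refine le_trans ?_ h2
  exact mul_le_mul_of_nonneg_left h1 (inv_nonneg.2 hk.le)

theorem ker_norm0 (hT : IsT' T) (ξ : E) (F : A33) :
    ‖ker T 0 ξ F‖ ≤ 72 * Real.pi / (1 + ‖ξ‖) * ‖F‖ := by
  have hpi := Real.pi_pos
  refine (pi_norm_le_iff_of_nonneg (by positivity)).2 fun j => ?_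
  rw [ker_apply']
  have h1 := sum_sy_norm ξ F j
  have hn := norm_nonneg ξ
  by_cases h : ‖ξ‖ ≤ 1
  · refine (hT.bound' _ (by have := ks_nonneg ξ; linarith) _).trans (h1.trans ?_)
    have : 36 * Real.pi * ‖ξ‖ ≤ 72 * Real.pi / (1 + ‖ξ‖) := by
      rw [le_div_iff₀ (by positivity)]
      have h2 : ‖ξ‖ * (1 + ‖ξ‖) ≤ 2 := by nlinarith
      nlinarith [mul_le_mul_of_nonneg_left h2 hpi.le]
    exact mul_le_mul_of_nonneg_right this (norm_nonneg F)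
  · push Not at h
    have hk : 0 < ks ξ + 0 := by unfold ks; positivity
    refine (hT.bound _ hk _).trans ?_
    refine (mul_le_mul_of_nonneg_left h1 (inv_nonneg.2 hk.le)).trans ?_
    rw [← mul_assoc]
    refine mul_le_mul_of_nonneg_right ?_ (norm_nonneg F)
    rw [inv_mul_eq_div, div_le_div_iff₀ hk (by positivity), add_zero]
    unfold ks
    have h3 : (3 : ℝ) < Real.pi := Real.pi_gt_three
    have h4 : ‖ξ‖ * (1 + ‖ξ‖) ≤ 2 * ‖ξ‖ ^ 2 := by nlinarith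
    have h5' : (1 : ℝ) ≤ 4 * Real.pi ^ 2 := by nlinarith
    have h5 : ‖ξ‖ ^ 2 ≤ 4 * Real.pi ^ 2 * ‖ξ‖ ^ 2 := by
      nlinarith [mul_le_mul_of_nonneg_right h5' (sq_nonneg ‖ξ‖)]
    calc 36 * Real.pi * ‖ξ‖ * (1 + ‖ξ‖) = 36 * Real.pi * (‖ξ‖ * (1 + ‖ξ‖)) := by ring
      _ ≤ 36 * Real.pi * (2 * (4 * Real.pi ^ 2 * ‖ξ‖ ^ 2)) :=
          mul_le_mul_of_nonneg_left (h4.trans (by linarith)) (by positivity)
      _ = 72 * Real.pi * (4 * Real.pi ^ 2 * ‖ξ‖ ^ 2) := by ring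

theorem aesm_pi {ι : Type} [Fintype ι] {F : ι → Type} [∀ i, NormedAddCommGroup (F i)]
    {f : E → ∀ i, F i} : AEStronglyMeasurable f volume ↔
      ∀ i, AEStronglyMeasurable (fun ξ => f ξ i) volume := by
  have := memLp_pi_iff (f := f) (p := 0) (μ := (volume : Measure E))
  simpa only [memLp_zero_iff_aestronglyMeasurable] using this

theorem T_joint (hT : IsT' T) {μ : ℝ} (hμ : 0 ≤ μ) :
    Continuous fun p : E × AA => T (ks p.1 + μ) p.2 := by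
  rw [continuous_iff_continuousAt]
  rintro ⟨ξ0, f0⟩
  have hk : ∀ ξ : E, 0 ≤ ks ξ + μ := fun ξ => add_nonneg (ks_nonneg ξ) hμ
  show Filter.Tendsto (fun p : E × AA => T (ks p.1 + μ) p.2) _ (nhds (T (ks ξ0 + μ) f0))
  rw [tendsto_iff_norm_sub_tendsto_zero]
  have h1 : Filter.Tendsto (fun p : E × AA => ‖p.2 - f0‖ + |ks p.1 + μ - (ks ξ0 + μ)| * ‖f0‖)
      (nhds (ξ0, f0)) (nhds 0) := by
    have hc : Continuous fun p : E × AA => ‖p.2 - f0‖ + |ks p.1 + μ - (ks ξ0 + μ)| * ‖f0‖ := by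
      have := ks_cont
      fun_prop
    have h2 := hc.tendsto (ξ0, f0)
    simpa using h2
  refine squeeze_zero (fun _ => norm_nonneg _) (fun p => ?_) h1
  calc ‖T (ks p.1 + μ) p.2 - T (ks ξ0 + μ) f0‖
      = ‖T (ks p.1 + μ) (p.2 - f0) + (T (ks p.1 + μ) f0 - T (ks ξ0 + μ) f0)‖ := by
        rw [map_sub]; congr 1; abel
    _ ≤ ‖T (ks p.1 + μ) (p.2 - f0)‖ + ‖T (ks p.1 + μ) f0 - T (ks ξ0 + μ) f0‖ := norm_add_le _ _
    _ ≤ _ := add_le_add (hT.bound' _ (hk _) _) (hT.lip _ _ (hk _) (hk _) _)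


end

end Pool.Agent.W785.QR
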