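import Mathlib
import Pool.Agent.W785.QR.Ex2a

set_option autoImplicit false

open MeasureTheory Set
open scoped FourierTransform ContDiff RealInnerProductSpace ComplexConjugate Convolution

namespace Pool.Agent.W785.QR

noncomputable section

variable {T : ℝ → AA →L[ℂ] AA}

theorem T_meas (hT : IsT' T) {μ : ℝ} (hμ : 0 ≤ μ) {F : E → AA}
    (hF : AEStronglyMeasurable F volume) :
    AEStronglyMeasurable (fun ξ => T (ks ξ + μ) (F ξ)) volume := by
  have h4 : AEStronglyMeasurable (fun ξ => ((ξ, F ξ) : E × AA)) volume :=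
    aestronglyMeasurable_id.prodMk hF
  have h5 := (T_joint hT hμ).comp_aestronglyMeasurable h4
  exact h5

theorem ker_meas (hT : IsT' T) {μ : ℝ} (hμ : 0 ≤ μ) {F : E → A33}
    (hF : AEStronglyMeasurable F volume) :
    AEStronglyMeasurable (fun ξ => ker T μ ξ (F ξ)) volume := by
  have h1 : ∀ k, AEStronglyMeasurable (fun ξ => F ξ k) volume := fun k =>
    (continuous_apply k).comp_aestronglyMeasurable hF
  have h2 : ∀ k l, AEStronglyMeasurable (fun ξ => F ξ k l) volume := fun k l =>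
    (continuous_apply l).comp_aestronglyMeasurable (h1 k)
  have h3 : ∀ k l, AEStronglyMeasurable (fun ξ => T (ks ξ + μ) (F ξ k l)) volume :=
    fun k l => T_meas hT hμ (h2 k l)
  have h5 : ∀ j, AEStronglyMeasurable (fun ξ => ker T μ ξ (F ξ) j) volume := by
    intro j
    have e : (fun ξ => ker T μ ξ (F ξ) j)
        = fun ξ => ∑ k, ∑ l, sy ξ j k l • T (ks ξ + μ) (F ξ k l) := by
      funext ξ; exact ker_apply T μ ξ (F ξ) j
    rw [e]
    refine Finset.aestronglyMeasurable_fun_sum _ fun k _ =>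
      Finset.aestronglyMeasurable_fun_sum _ fun l _ => ?_
    exact ((sy_meas j k l).aestronglyMeasurable).smul (h3 k l)
  exact aesm_pi.2 h5

/-- convolution of fields -/
def cv (f g : E → A3) : E → A33 := f ⋆[tens, volume] g

theorem cv_integrable {f g : E → A3} (hf : Integrable f) (hg : Integrable g) :
    Integrable (cv f g) := hf.integrable_convolution tens hg

theorem cv_ae {f g : E → A3} (hf : Integrable f) (hg : Integrable g) :
    ∀ᵐ ξ, Integrable (fun η => ‖f η‖ * ‖g (ξ - η)‖) ∧ Integrable (fun η => tens (f η) (g (ξ - η))) ∧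
      ‖cv f g ξ‖ ≤ ∫ η, ‖f η‖ * ‖g (ξ - η)‖ := by
  have h1 := Integrable.ae_convolution_exists (L := ContinuousLinearMap.mul ℝ ℝ) hf.norm hg.norm
  have h2 := Integrable.ae_convolution_exists (L := tens) hf hg
  filter_upwards [h1, h2] with ξ h1 h2
  have h1' : Integrable (fun η => ‖f η‖ * ‖g (ξ - η)‖) := h1
  refine ⟨h1', h2, ?_⟩
  show ‖∫ η, tens (f η) (g (ξ - η))‖ ≤ _
  exact norm_integral_le_of_norm_le h1' (Filter.Eventually.of_forall fun η => tens_norm _ _)

theorem integral_norm_cv {f g : E → A3} (hf : Integrable f) (hg : Integrable g) :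
    ∫ ξ, ‖cv f g ξ‖ ≤ (∫ ξ, ‖f ξ‖) * ∫ ξ, ‖g ξ‖ := by
  have h1 := integral_convolution (L := ContinuousLinearMap.mul ℝ ℝ) (μ := (volume : Measure E))
    (ν := (volume : Measure E)) hf.norm hg.norm
  have h2 := hf.norm.integrable_convolution (ContinuousLinearMap.mul ℝ ℝ) hg.norm
  have h3 : (∫ ξ, ‖f ξ‖) * ∫ ξ, ‖g ξ‖
      = ∫ ξ, ((fun η => ‖f η‖) ⋆[ContinuousLinearMap.mul ℝ ℝ, volume] fun η => ‖g η‖) ξ := by
    rw [h1]; rfl
  rw [h3]
  refine integral_mono_ae (cv_integrable hf hg).norm h2 ?_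
  filter_upwards [cv_ae hf hg] with ξ h
  exact h.2.2

end

end Pool.Agent.W785.QR
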