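import Mathlib
import Pool.Agent.W785.QR.Ex2

set_option autoImplicit false

open MeasureTheory Set
open scoped FourierTransform ContDiff RealInnerProductSpace ComplexConjugate Convolution

namespace Pool.Agent.W785.QR

noncomputable section

variable {T : ℝ → AA →L[ℂ] AA} {μ : ℝ}

/-- the Banach space of integrable fields -/
abbrev X : Type := Lp A3 1 (volume : Measure E)

theorem xint (f : X) : Integrable (f : E → A3) := L1.integrable_coeFn f

theorem xnorm (f : X) : ‖f‖ = ∫ ξ, ‖f ξ‖ := L1.norm_eq_integral_norm f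

theorem kint (hT : IsT' T) (hμ : 0 < μ) {F : E → A33} (hF : Integrable F) :
    Integrable fun ξ => ker T μ ξ (F ξ) :=
  (hF.norm.const_mul (9 / Real.sqrt μ)).mono' (ker_meas hT hμ.le hF.aestronglyMeasurable)
    (Filter.Eventually.of_forall fun ξ => ker_norm1 hT hμ ξ (F ξ))

theorem cv_congr {f f' g g' : E → A3} (h1 : f =ᵐ[volume] f') (h2 : g =ᵐ[volume] g') :
    cv f g = cv f' g' := convolution_congr tens h1 h2

theorem cv_add_left {f f' g : E → A3} (hf : Integrable f) (hf' : Integrable f')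
    (hg : Integrable g) : ∀ᵐ ξ, cv (f + f') g ξ = cv f g ξ + cv f' g ξ := by
  filter_upwards [Integrable.ae_convolution_exists (L := tens) hf hg,
    Integrable.ae_convolution_exists (L := tens) hf' hg] with ξ h1 h2
  exact h1.add_distrib h2

theorem cv_add_right {f g g' : E → A3} (hf : Integrable f) (hg : Integrable g)
    (hg' : Integrable g') : ∀ᵐ ξ, cv f (g + g') ξ = cv f g ξ + cv f g' ξ := by
  filter_upwards [Integrable.ae_convolution_exists (L := tens) hf hg,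
    Integrable.ae_convolution_exists (L := tens) hf hg'] with ξ h1 h2
  exact h1.distrib_add h2

theorem cv_smul_left (c : ℂ) (f g : E → A3) : cv (c • f) g = c • cv f g := smul_convolution

theorem cv_smul_right (c : ℂ) (f g : E → A3) : cv f (c • g) = c • cv f g := convolution_smul

/-- the bilinear map -/
def Bf (hT : IsT' T) (hμ : 0 < μ) (f g : X) : X :=
  (kint hT hμ (cv_integrable (xint f) (xint g))).toL1 fun ξ => ker T μ ξ (cv f g ξ)

theorem Bf_coe (hT : IsT' T) (hμ : 0 < μ) (f g : X) :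
    (Bf hT hμ f g : E → A3) =ᵐ[volume] fun ξ => ker T μ ξ (cv f g ξ) := Integrable.coeFn_toL1 _

theorem Bf_norm (hT : IsT' T) (hμ : 0 < μ) (f g : X) :
    ‖Bf hT hμ f g‖ ≤ 9 / Real.sqrt μ * ‖f‖ * ‖g‖ := by
  have e : ∫ ξ, ‖(Bf hT hμ f g : E → A3) ξ‖ = ∫ ξ, ‖ker T μ ξ (cv f g ξ)‖ :=
    integral_congr_ae ((Bf_coe hT hμ f g).mono fun ξ h => by
      show ‖(Bf hT hμ f g : E → A3) ξ‖ = _
      rw [h])
  rw [xnorm, e, xnorm f, xnorm g, mul_assoc]
  refine le_trans ?_ (mul_le_mul_of_nonneg_left (integral_norm_cv (xint f) (xint g))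
    (by positivity))
  rw [← integral_const_mul]
  exact integral_mono (kint hT hμ (cv_integrable (xint f) (xint g))).norm
    ((cv_integrable (xint f) (xint g)).norm.const_mul _)
    (fun ξ => ker_norm1 hT hμ ξ _)

theorem Bf_add_left (hT : IsT' T) (hμ : 0 < μ) (f f' g : X) :
    Bf hT hμ (f + f') g = Bf hT hμ f g + Bf hT hμ f' g := by
  refine Lp.ext ?_
  have h1 : cv ((f + f' : X) : E → A3) g = cv ((f : E → A3) + (f' : E → A3)) g :=
    cv_congr (Lp.coeFn_add f f') (Filter.EventuallyEq.refl _ _)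
  filter_upwards [Bf_coe hT hμ (f + f') g, Bf_coe hT hμ f g, Bf_coe hT hμ f' g,
    Lp.coeFn_add (Bf hT hμ f g) (Bf hT hμ f' g), cv_add_left (xint f) (xint f') (xint g)]
    with ξ a1 a2 a3 a4 a5
  rw [a1, a4, Pi.add_apply, a2, a3, h1, a5, map_add]

theorem Bf_add_right (hT : IsT' T) (hμ : 0 < μ) (f g g' : X) :
    Bf hT hμ f (g + g') = Bf hT hμ f g + Bf hT hμ f g' := by
  refine Lp.ext ?_
  have h1 : cv f ((g + g' : X) : E → A3) = cv f ((g : E → A3) + (g' : E → A3)) :=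
    cv_congr (Filter.EventuallyEq.refl _ _) (Lp.coeFn_add g g')
  filter_upwards [Bf_coe hT hμ f (g + g'), Bf_coe hT hμ f g, Bf_coe hT hμ f g',
    Lp.coeFn_add (Bf hT hμ f g) (Bf hT hμ f g'), cv_add_right (xint f) (xint g) (xint g')]
    with ξ a1 a2 a3 a4 a5
  rw [a1, a4, Pi.add_apply, a2, a3, h1, a5, map_add]

theorem Bf_smul_left (hT : IsT' T) (hμ : 0 < μ) (c : ℂ) (f g : X) :
    Bf hT hμ (c • f) g = c • Bf hT hμ f g := by
  refine Lp.ext ?_
  have h1 : cv ((c • f : X) : E → A3) g = cv (c • (f : E → A3)) g :=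
    cv_congr (Lp.coeFn_smul c f) (Filter.EventuallyEq.refl _ _)
  filter_upwards [Bf_coe hT hμ (c • f) g, Bf_coe hT hμ f g, Lp.coeFn_smul c (Bf hT hμ f g)]
    with ξ a1 a2 a3
  rw [a1, a3, Pi.smul_apply, a2, h1, cv_smul_left, Pi.smul_apply, map_smul]

theorem Bf_smul_right (hT : IsT' T) (hμ : 0 < μ) (c : ℂ) (f g : X) :
    Bf hT hμ f (c • g) = c • Bf hT hμ f g := by
  refine Lp.ext ?_
  have h1 : cv f ((c • g : X) : E → A3) = cv f (c • (g : E → A3)) :=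
    cv_congr (Filter.EventuallyEq.refl _ _) (Lp.coeFn_smul c g)
  filter_upwards [Bf_coe hT hμ f (c • g), Bf_coe hT hμ f g, Lp.coeFn_smul c (Bf hT hμ f g)]
    with ξ a1 a2 a3
  rw [a1, a3, Pi.smul_apply, a2, h1, cv_smul_right, Pi.smul_apply, map_smul]

/-- the continuous bilinear map -/
def BB (hT : IsT' T) (hμ : 0 < μ) : X →L[ℂ] X →L[ℂ] X :=
  LinearMap.mkContinuous₂ (LinearMap.mk₂ ℂ (Bf hT hμ) (Bf_add_left hT hμ) (Bf_smul_left hT hμ)
    (Bf_add_right hT hμ) (Bf_smul_right hT hμ)) (9 / Real.sqrt μ) (Bf_norm hT hμ)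

theorem BB_apply (hT : IsT' T) (hμ : 0 < μ) (f g : X) : BB hT hμ f g = Bf hT hμ f g := rfl

theorem BB_norm (hT : IsT' T) (hμ : 0 < μ) (f g : X) :
    ‖BB hT hμ f g‖ ≤ 9 / Real.sqrt μ * ‖f‖ * ‖g‖ := Bf_norm hT hμ f g

/-- abstract fixed point theorem: `x = - (y + B V x + B x V + B (M x) x)` -/
theorem fixed {κ m : ℝ} (hκ : 0 ≤ κ) (hm : 0 ≤ m) (B : X →L[ℂ] X →L[ℂ] X)
    (hB : ∀ f g, ‖B f g‖ ≤ κ * ‖f‖ * ‖g‖) (M : X →L[ℂ] X) (hM : ∀ f, ‖M f‖ ≤ m * ‖f‖) (V y : X)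
    (r : ℝ) (hr : 0 < r) (hy : ‖y‖ ≤ r / 4) (hV : 2 * κ * ‖V‖ ≤ 1 / 4) (hq : κ * m * r ≤ 1 / 8) :
    ∃ q : X, ‖q‖ ≤ r ∧ q = -(y + B V q + B q V + B (M q) q) ∧
      ∀ q' : X, ‖q'‖ ≤ r → q' = -(y + B V q' + B q' V + B (M q') q') → q' = q := by
  set Φ : X → X := fun q => -(y + B V q + B q V + B (M q) q) with hΦ
  have h1 : ∀ q, ‖q‖ ≤ r → ‖Φ q‖ ≤ r := by
    intro q hq'
    have a1 := hB V q
    have a2 := hB q V
    have a3 : ‖B (M q) q‖ ≤ κ * (m * ‖q‖) * ‖q‖ :=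
      (hB (M q) q).trans (by gcongr; exact hM q)
    have n1 := norm_nonneg q
    have n2 := norm_nonneg V
    calc ‖Φ q‖ = ‖y + B V q + B q V + B (M q) q‖ := norm_neg _
      _ ≤ ‖y‖ + ‖B V q‖ + ‖B q V‖ + ‖B (M q) q‖ :=
          (norm_add_le _ _).trans (add_le_add ((norm_add_le _ _).trans
            (add_le_add (norm_add_le _ _) le_rfl)) le_rfl)
      _ ≤ r / 4 + κ * ‖V‖ * ‖q‖ + κ * ‖q‖ * ‖V‖ + κ * (m * ‖q‖) * ‖q‖ := by gcongr
      _ = r / 4 + (2 * κ * ‖V‖) * ‖q‖ + κ * m * ‖q‖ * ‖q‖ := by ring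
      _ ≤ r / 4 + 1 / 4 * r + κ * m * r * r := by gcongr
      _ ≤ r := by nlinarith
  have h2 : ∀ q q', ‖q‖ ≤ r → ‖q'‖ ≤ r → ‖Φ q - Φ q'‖ ≤ 1 / 2 * ‖q - q'‖ := by
    intro q q' hq1 hq2
    have e : Φ q - Φ q' = -(B V (q - q') + B (q - q') V + B (M (q - q')) q + B (M q') (q - q')) := by
      simp only [hΦ, map_sub, FunLike.coe_sub, Pi.sub_apply]
      abel
    have a1 := hB V (q - q')
    have a2 := hB (q - q') V
    have a3 : ‖B (M (q - q')) q‖ ≤ κ * (m * ‖q - q'‖) * ‖q‖ :=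
      (hB _ q).trans (by gcongr; exact hM _)
    have a4 : ‖B (M q') (q - q')‖ ≤ κ * (m * ‖q'‖) * ‖q - q'‖ :=
      (hB _ _).trans (by gcongr; exact hM _)
    have n1 := norm_nonneg (q - q')
    have n2 := norm_nonneg V
    rw [e, norm_neg]
    calc ‖B V (q - q') + B (q - q') V + B (M (q - q')) q + B (M q') (q - q')‖
        ≤ ‖B V (q - q')‖ + ‖B (q - q') V‖ + ‖B (M (q - q')) q‖ + ‖B (M q') (q - q')‖ :=
          (norm_add_le _ _).trans (add_le_add ((norm_add_le _ _).trans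
            (add_le_add (norm_add_le _ _) le_rfl)) le_rfl)
      _ ≤ κ * ‖V‖ * ‖q - q'‖ + κ * ‖q - q'‖ * ‖V‖ + κ * (m * ‖q - q'‖) * ‖q‖
          + κ * (m * ‖q'‖) * ‖q - q'‖ := by gcongr
      _ ≤ κ * ‖V‖ * ‖q - q'‖ + κ * ‖q - q'‖ * ‖V‖ + κ * (m * ‖q - q'‖) * r
          + κ * (m * r) * ‖q - q'‖ := by gcongr
      _ = (2 * κ * ‖V‖ + 2 * (κ * m * r)) * ‖q - q'‖ := by ring
      _ ≤ (1 / 4 + 2 * (1 / 8)) * ‖q - q'‖ := by gcongr
      _ = 1 / 2 * ‖q - q'‖ := by ring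
  -- Banach fixed point in the closed ball
  have hmaps : MapsTo Φ (Metric.closedBall 0 r) (Metric.closedBall 0 r) := by
    intro q hq'
    rw [mem_closedBall_zero_iff] at hq' ⊢
    exact h1 q hq'
  have hc : ContractingWith (1 / 2 : NNReal) (hmaps.restrict Φ _ _) := by
    refine ⟨by
      rw [← NNReal.coe_lt_coe]; norm_num, ?_⟩
    refine LipschitzWith.of_dist_le_mul fun q q' => ?_
    have := h2 q q' (mem_closedBall_zero_iff.1 q.2) (mem_closedBall_zero_iff.1 q'.2)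
    rw [Subtype.dist_eq, Subtype.dist_eq, dist_eq_norm, dist_eq_norm]
    simpa using this
  have hcomp : IsComplete (Metric.closedBall (0 : X) r) := Metric.isClosed_closedBall.isComplete
  obtain ⟨q, hq1, hq2, -⟩ := ContractingWith.exists_fixedPoint' hcomp hmaps hc
    (x := 0) (by simp [hr.le]) (edist_ne_top _ _)
  refine ⟨q, mem_closedBall_zero_iff.1 hq1, hq2.symm, fun q' hq1' hq2' => ?_⟩
  have h3 := h2 q' q hq1' (mem_closedBall_zero_iff.1 hq1)
  have e1 : Φ q' = q' := hq2'.symm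
  have e2 : Φ q = q := hq2
  rw [e1, e2] at h3
  have h4 : ‖q' - q‖ = 0 := by
    have := norm_nonneg (q' - q)
    linarith
  exact sub_eq_zero.1 (norm_eq_zero.1 h4)

end

end Pool.Agent.W785.QR
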