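import Mathlib
import Pool.Agent.W785.QR.Ex3

set_option autoImplicit false

open MeasureTheory Set
open scoped FourierTransform ContDiff RealInnerProductSpace ComplexConjugate Convolution

namespace Pool.Agent.W785.QR

noncomputable section

/-! ### continuity of maps into `AA` -/

theorem AA.cont_of {Y : Type} [TopologicalSpace Y] {F : Y → AA}
    (h : Continuous fun x : Y × KK => (F x.1).val x.2) : Continuous F := by
  have h1 : Continuous ((⟨fun x : Y × KK => (F x.1).val x.2, h⟩ : C(Y × KK, ℂ)).curry) :=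
    ContinuousMap.continuous _
  exact h1

/-- the heat semigroup, with amplitude -/
def hh (ξ : E) : AA :=
  AA.mk (fun p => ((p.1.1 * Real.exp (-(4 * Real.pi ^ 2 * (p.2.1 + 1) * ‖ξ‖ ^ 2)) : ℝ) : ℂ))
    (by fun_prop)

theorem hh_val (ξ : E) (p : KK) : (hh ξ).val p
    = ((p.1.1 * Real.exp (-(4 * Real.pi ^ 2 * (p.2.1 + 1) * ‖ξ‖ ^ 2)) : ℝ) : ℂ) := rfl

theorem hh_cont : Continuous hh := by
  refine AA.cont_of ?_
  simp only [hh_val]
  fun_prop

theorem hh_norm (ξ : E) : ‖hh ξ‖ ≤ 1 := by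
  refine (AA.norm_le zero_le_one).2 fun p => ?_
  rw [hh_val, Complex.norm_real, Real.norm_eq_abs, abs_mul, abs_of_nonneg p.1.2.1,
    abs_of_pos (Real.exp_pos _)]
  have h1 : Real.exp (-(4 * Real.pi ^ 2 * (p.2.1 + 1) * ‖ξ‖ ^ 2)) ≤ 1 := by
    rw [Real.exp_le_one_iff]
    have : 0 ≤ p.2.1 + 1 := by have := p.2.2.1; linarith
    have : 0 ≤ 4 * Real.pi ^ 2 * (p.2.1 + 1) * ‖ξ‖ ^ 2 := by positivity
    linarith
  calc p.1.1 * _ ≤ 1 * 1 := mul_le_mul p.1.2.2 h1 (Real.exp_pos _).le zero_le_one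
    _ = 1 := one_mul 1

/-- the solution of the heat equation -/
def VV (A0 : Fin 3 → E → ℂ) (ξ : E) : A3 := fun j => A0 j ξ • hh ξ

theorem VV_val (A0 : Fin 3 → E → ℂ) (ξ : E) (j : Fin 3) (p : KK) :
    (VV A0 ξ j).val p = heat p.1.1 A0 j p.2.1 ξ := by
  show A0 j ξ * (hh ξ).val p = _
  rw [hh_val, heat]
  ring

theorem VV_norm_le (A0 : Fin 3 → E → ℂ) (ξ : E) : ‖VV A0 ξ‖ ≤ ∑ j, ‖A0 j ξ‖ := by
  refine (pi_norm_le_iff_of_nonneg (Finset.sum_nonneg fun _ _ => norm_nonneg _)).2 fun j => ?_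
  show ‖A0 j ξ • hh ξ‖ ≤ _
  rw [norm_smul]
  calc ‖A0 j ξ‖ * ‖hh ξ‖ ≤ ‖A0 j ξ‖ * 1 := mul_le_mul_of_nonneg_left (hh_norm ξ) (norm_nonneg _)
    _ = ‖A0 j ξ‖ := mul_one _
    _ ≤ _ := Finset.single_le_sum (f := fun j => ‖A0 j ξ‖) (fun _ _ => norm_nonneg _)
        (Finset.mem_univ j)

theorem smeas_pi {ι : Type} [Fintype ι] [DecidableEq ι] {F : ι → Type}
    [∀ i, NormedAddCommGroup (F i)]
    {Y : Type} [MeasurableSpace Y] {f : Y → ∀ i, F i}
    (h : ∀ i, StronglyMeasurable (fun ξ => f ξ i)) : StronglyMeasurable f := by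
  have e : f = fun ξ => ∑ i, Pi.single i (f ξ i) := by
    funext ξ
    exact (Finset.univ_sum_single (f ξ)).symm
  rw [e]
  refine Finset.stronglyMeasurable_fun_sum _ fun i _ => ?_
  exact (continuous_single i).comp_stronglyMeasurable (h i)

theorem VV_smeas {A0 : Fin 3 → E → ℂ} (h : ∀ j, Measurable (A0 j)) :
    StronglyMeasurable (VV A0) := by
  refine smeas_pi fun j => ?_
  exact (h j).stronglyMeasurable.smul hh_cont.stronglyMeasurable

theorem Data.int {A0 : Fin 3 → E → ℂ} {Λ : ℝ} (h : Data A0 Λ) (j : Fin 3) :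
    Integrable (A0 j) := by
  obtain ⟨B, hB⟩ := h.bdd
  obtain ⟨R, hR⟩ := h.supp
  have h1 : IntegrableOn (A0 j) (Metric.closedBall 0 R) := by
    refine Measure.integrableOn_of_bounded (M := B) ?_ (h.meas j).aestronglyMeasurable ?_
    · exact measure_closedBall_lt_top.ne
    · exact Filter.Eventually.of_forall fun ξ => hB j ξ
  refine (integrableOn_iff_integrable_of_support_subset ?_).1 h1
  intro ξ hξ
  by_contra hc
  rw [mem_closedBall_zero_iff, not_le] at hc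
  exact hξ (hR j ξ hc)

theorem VV_int {A0 : Fin 3 → E → ℂ} {Λ : ℝ} (h : Data A0 Λ) : Integrable (VV A0) := by
  refine (integrable_finsetSum Finset.univ fun j _ => (h.int j).norm).mono'
    (VV_smeas h.meas).aestronglyMeasurable (Filter.Eventually.of_forall fun ξ => ?_)
  exact VV_norm_le A0 ξ

theorem VV_mass {A0 : Fin 3 → E → ℂ} {Λ : ℝ} (h : Data A0 Λ) : ∫ ξ, ‖VV A0 ξ‖ ≤ 3 * Λ := by
  have h1 : ∫ ξ, ‖VV A0 ξ‖ ≤ ∫ ξ, ∑ j, ‖A0 j ξ‖ :=
    integral_mono (VV_int h).norm (integrable_finsetSum Finset.univ fun j _ => (h.int j).norm)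
      fun ξ => VV_norm_le A0 ξ
  rw [integral_finsetSum _ fun j _ => (h.int j).norm] at h1
  refine h1.trans ?_
  calc ∑ j, ∫ ξ, ‖A0 j ξ‖ ≤ ∑ j : Fin 3, Λ := Finset.sum_le_sum fun j _ => h.mass j
    _ = 3 * Λ := by simp

theorem VV_bdd {A0 : Fin 3 → E → ℂ} {Λ : ℝ} (h : Data A0 Λ) :
    ∃ B : ℝ, 0 ≤ B ∧ ∀ ξ, ‖VV A0 ξ‖ ≤ B := by
  obtain ⟨B, hB⟩ := h.bdd
  have hB0 : 0 ≤ B := (norm_nonneg _).trans (hB 0 0)
  refine ⟨3 * B, by positivity, fun ξ => (VV_norm_le A0 ξ).trans ?_⟩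
  calc ∑ j, ‖A0 j ξ‖ ≤ ∑ j : Fin 3, B := Finset.sum_le_sum fun j _ => hB j ξ
    _ = 3 * B := by simp

theorem VV_supp {A0 : Fin 3 → E → ℂ} {Λ : ℝ} (h : Data A0 Λ) :
    ∃ R : ℝ, ∀ ξ, R < ‖ξ‖ → VV A0 ξ = 0 := by
  obtain ⟨R, hR⟩ := h.supp
  refine ⟨R, fun ξ hξ => ?_⟩
  funext j
  show A0 j ξ • hh ξ = 0
  rw [hR j ξ hξ, zero_smul]

/-! ### exponential weights -/

/-- `exp (λ (t + 1))` -/
def em (lam : ℝ) : AA := AA.mk (fun p => ((Real.exp (lam * (p.2.1 + 1)) : ℝ) : ℂ)) (by fun_prop)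

theorem em_val (lam : ℝ) (p : KK) :
    (em lam).val p = ((Real.exp (lam * (p.2.1 + 1)) : ℝ) : ℂ) := rfl

theorem em_norm {lam : ℝ} (h : 0 ≤ lam) : ‖em lam‖ ≤ Real.exp lam := by
  refine (AA.norm_le (Real.exp_pos _).le).2 fun p => ?_
  rw [em_val, Complex.norm_real, Real.norm_eq_abs, abs_of_pos (Real.exp_pos _), Real.exp_le_exp]
  have := p.2.2.2
  nlinarith

theorem em_neg_norm {lam : ℝ} (h : 0 ≤ lam) : ‖em (-lam)‖ ≤ 1 := by
  refine (AA.norm_le zero_le_one).2 fun p => ?_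
  rw [em_val, Complex.norm_real, Real.norm_eq_abs, abs_of_pos (Real.exp_pos _),
    Real.exp_le_one_iff]
  have := p.2.2.1
  nlinarith

theorem em_mul (lam : ℝ) (f : AA) : em lam * (em (-lam) * f) = f := by
  ext p
  rw [AA.val_mul, AA.val_mul, em_val, em_val, ← mul_assoc, ← Complex.ofReal_mul, ← Real.exp_add]
  have : lam * (p.2.1 + 1) + -lam * (p.2.1 + 1) = 0 := by ring
  rw [this, Real.exp_zero, Complex.ofReal_one, one_mul]

/-- multiplication of a field by an element of the algebra -/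
def mul3 (e : AA) : A3 →L[ℂ] A3 :=
  LinearMap.mkContinuous
    { toFun := fun f => fun j => e * f j
      map_add' := fun f g => by funext j; exact mul_add _ _ _
      map_smul' := fun c f => by
        funext j
        show e * (c • f j) = c • (e * f j)
        rw [mul_smul_comm] } ‖e‖ (by
      intro f
      refine (pi_norm_le_iff_of_nonneg (by positivity)).2 fun j => ?_
      show ‖e * f j‖ ≤ _
      exact (norm_mul_le _ _).trans (mul_le_mul_of_nonneg_left (norm_le_pi_norm f j)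
        (norm_nonneg _)))

@[simp] theorem mul3_apply (e : AA) (f : A3) (j : Fin 3) : mul3 e f j = e * f j := rfl

theorem mul3_norm (e : AA) (f : A3) : ‖mul3 e f‖ ≤ ‖e‖ * ‖f‖ := by
  refine (pi_norm_le_iff_of_nonneg (by positivity)).2 fun j => ?_
  show ‖e * f j‖ ≤ _
  exact (norm_mul_le _ _).trans (mul_le_mul_of_nonneg_left (norm_le_pi_norm f j) (norm_nonneg _))

variable {T : ℝ → AA →L[ℂ] AA}

theorem T_em (hT : IsT' T) {k lam : ℝ} (hk : 0 ≤ k) (hl : 0 ≤ lam) (f : AA) :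
    T k (em lam * f) = em lam * T (k + lam) f := by
  ext p
  rw [AA.val_mul, hT.eq k hk, hT.eq (k + lam) (by positivity), em_val,
    ← intervalIntegral.integral_const_mul]
  have hp := p.2.2.1
  refine intervalIntegral.integral_congr fun s hs => ?_
  rw [uIcc_of_le hp] at hs
  have hs' : s ∈ Icc (-1 : ℝ) 0 := ⟨hs.1, hs.2.trans p.2.2.2⟩
  simp only [AA.val_mul, em_val, projIcc_of_mem _ hs']
  rw [← mul_assoc, ← mul_assoc, ← Complex.ofReal_mul, ← Complex.ofReal_mul, ← Real.exp_add,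
    ← Real.exp_add]
  congr 3
  ring

end

end Pool.Agent.W785.QR
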