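import Mathlib
import Pool.Agent.W785.QR.Ex4

set_option autoImplicit false

open MeasureTheory Set
open scoped FourierTransform ContDiff RealInnerProductSpace ComplexConjugate Convolution

namespace Pool.Agent.W785.QR

noncomputable section

variable {T : ℝ → AA →L[ℂ] AA}

/-! ### pointwise facts on convolutions -/

theorem cv_val {f g : E → A3} {ξ : E} (h : Integrable fun η => tens (f η) (g (ξ - η)))
    (k l : Fin 3) (p : KK) :
    (cv f g ξ k l).val p = ∫ η, (f η k).val p * (g (ξ - η) l).val p := by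
  have h1 := ((AA.ev p).comp ((ContinuousLinearMap.proj (R := ℂ) (φ := fun _ : Fin 3 => AA) l).comp
      (ContinuousLinearMap.proj (R := ℂ) (φ := fun _ : Fin 3 => (Fin 3 → AA)) k))).integral_comp_comm
      h
  exact h1.symm

theorem tens_int {f g : E → A3} (hf : Integrable f) (hg : AEStronglyMeasurable g volume) {B : ℝ}
    (hB : ∀ᵐ ξ, ‖g ξ‖ ≤ B) (ξ : E) :
    Integrable (fun η => ‖f η‖ * ‖g (ξ - η)‖) ∧ Integrable fun η => tens (f η) (g (ξ - η)) := by
  have q := quasiMeasurePreserving_sub_left (volume : Measure E) ξ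
  have hB' : ∀ᵐ η, ‖g (ξ - η)‖ ≤ B := q.ae hB
  have hg' : AEStronglyMeasurable (fun η => g (ξ - η)) volume := hg.comp_quasiMeasurePreserving q
  have h1 : Integrable (fun η => ‖f η‖ * ‖g (ξ - η)‖) := by
    refine (hf.norm.mul_const B).mono' (hf.1.norm.mul hg'.norm) ?_
    filter_upwards [hB'] with η h
    rw [norm_mul, norm_norm, norm_norm]
    exact mul_le_mul_of_nonneg_left h (norm_nonneg _)
  refine ⟨h1, h1.mono' (tens.aestronglyMeasurable_comp₂ hf.1 hg') ?_⟩
  exact Filter.Eventually.of_forall fun η => tens_norm _ _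

theorem cv_le {f g : E → A3} {ξ : E} (h : Integrable (fun η => ‖f η‖ * ‖g (ξ - η)‖)) :
    ‖cv f g ξ‖ ≤ ∫ η, ‖f η‖ * ‖g (ξ - η)‖ := by
  show ‖∫ η, tens (f η) (g (ξ - η))‖ ≤ _
  exact norm_integral_le_of_norm_le h (Filter.Eventually.of_forall fun η => tens_norm _ _)

theorem cv_mul_left (e : AA) (f f' g : E → A3) (hf' : ∀ ξ, f' ξ = mul3 e (f ξ)) {ξ : E}
    (h : Integrable fun η => tens (f η) (g (ξ - η))) :
    cv f' g ξ = fun k l => e * cv f g ξ k l := by
  have h' : Integrable fun η => tens (f' η) (g (ξ - η)) := by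
    let L : A33 →L[ℂ] A33 := ContinuousLinearMap.pi fun k => (mul3 e).comp
      (ContinuousLinearMap.proj (R := ℂ) (φ := fun _ : Fin 3 => (Fin 3 → AA)) k)
    have h2 := L.integrable_comp h
    refine h2.congr (Filter.Eventually.of_forall fun η => ?_)
    show L (tens (f η) (g (ξ - η))) = tens (f' η) (g (ξ - η))
    rw [hf']
    funext k l
    ext p
    show e.val p * ((f η k).val p * (g (ξ - η) l).val p)
      = (e.val p * (f η k).val p) * (g (ξ - η) l).val p
    ring
  funext k l
  ext p
  calc (cv f' g ξ k l).val p = ∫ η, (f' η k).val p * (g (ξ - η) l).val p := cv_val h' k l p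
    _ = ∫ η, e.val p * ((f η k).val p * (g (ξ - η) l).val p) := by
        refine integral_congr_ae (Filter.Eventually.of_forall fun η => ?_)
        show (f' η k).val p * (g (ξ - η) l).val p = e.val p * ((f η k).val p * (g (ξ - η) l).val p)
        rw [hf', mul3_apply, AA.val_mul]
        ring
    _ = e.val p * ∫ η, (f η k).val p * (g (ξ - η) l).val p := integral_const_mul _ _
    _ = (e * cv f g ξ k l).val p := by rw [AA.val_mul, cv_val h]

theorem cv_mul_right (e : AA) (f g g' : E → A3) (hg' : ∀ ξ, g' ξ = mul3 e (g ξ)) {ξ : E}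
    (h : Integrable fun η => tens (f η) (g (ξ - η))) :
    cv f g' ξ = fun k l => e * cv f g ξ k l := by
  have h' : Integrable fun η => tens (f η) (g' (ξ - η)) := by
    let L : A33 →L[ℂ] A33 := ContinuousLinearMap.pi fun k => (mul3 e).comp
      (ContinuousLinearMap.proj (R := ℂ) (φ := fun _ : Fin 3 => (Fin 3 → AA)) k)
    have h2 := L.integrable_comp h
    refine h2.congr (Filter.Eventually.of_forall fun η => ?_)
    show L (tens (f η) (g (ξ - η))) = tens (f η) (g' (ξ - η))
    rw [hg']
    funext k l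
    ext p
    show e.val p * ((f η k).val p * (g (ξ - η) l).val p)
      = (f η k).val p * (e.val p * (g (ξ - η) l).val p)
    ring
  funext k l
  ext p
  calc (cv f g' ξ k l).val p = ∫ η, (f η k).val p * (g' (ξ - η) l).val p := cv_val h' k l p
    _ = ∫ η, e.val p * ((f η k).val p * (g (ξ - η) l).val p) := by
        refine integral_congr_ae (Filter.Eventually.of_forall fun η => ?_)
        show (f η k).val p * (g' (ξ - η) l).val p = e.val p * ((f η k).val p * (g (ξ - η) l).val p)
        rw [hg', mul3_apply, AA.val_mul]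
        ring
    _ = e.val p * ∫ η, (f η k).val p * (g (ξ - η) l).val p := integral_const_mul _ _
    _ = (e * cv f g ξ k l).val p := by rw [AA.val_mul, cv_val h]

theorem ker_em (hT : IsT' T) {lam : ℝ} (hl : 0 ≤ lam) (ξ : E) (F : A33) :
    ker T 0 ξ (fun k l => em lam * F k l) = mul3 (em lam) (ker T lam ξ F) := by
  funext j
  rw [ker_apply, mul3_apply, ker_apply, Finset.mul_sum]
  refine Finset.sum_congr rfl fun k _ => ?_
  rw [Finset.mul_sum]
  refine Finset.sum_congr rfl fun l _ => ?_
  rw [add_zero, T_em hT (ks_nonneg ξ) hl, mul_smul_comm]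

/-! ### conjugation -/

/-- complex conjugate -/
def AA.conj (f : AA) : AA :=
  AA.mk (fun p => (starRingEnd ℂ) (f.val p)) (Complex.continuous_conj.comp f.val_cont)

@[simp] theorem AA.val_conj (f : AA) (p : KK) : f.conj.val p = (starRingEnd ℂ) (f.val p) := rfl

theorem AA.conj_norm_le (f : AA) : ‖f.conj‖ ≤ ‖f‖ := by
  refine (AA.norm_le (norm_nonneg f)).2 fun p => ?_
  rw [AA.val_conj, RCLike.norm_conj]
  exact AA.val_le f p

theorem AA.conj_sub (f g : AA) : f.conj - g.conj = (f - g).conj := by
  ext p; simp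

theorem AA.conj_cont : Continuous AA.conj := by
  refine (LipschitzWith.of_dist_le_mul (K := 1) fun f g => ?_).continuous
  rw [dist_eq_norm, dist_eq_norm, AA.conj_sub, NNReal.coe_one, one_mul]
  exact AA.conj_norm_le _

/-- conjugate of a field -/
def cj (f : A3) : A3 := fun j => (f j).conj

@[simp] theorem cj_apply (f : A3) (j : Fin 3) : cj f j = (f j).conj := rfl

theorem cj_norm_le (f : A3) : ‖cj f‖ ≤ ‖f‖ :=
  (pi_norm_le_iff_of_nonneg (norm_nonneg f)).2 fun j =>
    (AA.conj_norm_le (f j)).trans (norm_le_pi_norm f j)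

theorem cj_cj (f : A3) : cj (cj f) = f := by
  funext j; ext p; simp

theorem cj_norm (f : A3) : ‖cj f‖ = ‖f‖ :=
  le_antisymm (cj_norm_le f) ((congrArg norm (cj_cj f)).symm.le.trans (cj_norm_le _))

theorem cj_cont : Continuous cj :=
  continuous_pi fun j => AA.conj_cont.comp (continuous_apply j)

theorem T_conj (hT : IsT' T) {k : ℝ} (hk : 0 ≤ k) (f : AA) : T k f.conj = (T k f).conj := by
  ext p
  rw [AA.val_conj, hT.eq k hk, hT.eq k hk]
  have hp := p.2.2.1
  rw [intervalIntegral.integral_of_le hp, intervalIntegral.integral_of_le hp, ← integral_conj]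
  refine integral_congr_ae (Filter.Eventually.of_forall fun s => ?_)
  simp only [AA.val_conj, map_mul, Complex.conj_ofReal]

/-- reflection of a field -/
def Rf (f : E → A3) (ξ : E) : A3 := cj (f (-ξ))

theorem Rf_int {f : E → A3} (hf : Integrable f) : Integrable (Rf f) := by
  have h1 : Integrable fun ξ => f (-ξ) := hf.comp_neg
  refine h1.norm.mono' (cj_cont.comp_aestronglyMeasurable h1.1) ?_
  exact Filter.Eventually.of_forall fun ξ => cj_norm_le _

theorem Rf_congr {f g : E → A3} (h : f =ᵐ[volume] g) : Rf f =ᵐ[volume] Rf g := by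
  have h1 : ∀ᵐ ξ : E, f (-ξ) = g (-ξ) :=
    (quasiMeasurePreserving_neg (volume : Measure E)).ae h
  filter_upwards [h1] with ξ h
  show cj _ = cj _
  rw [h]

theorem cv_Rf {f g : E → A3} {ξ : E} (h : Integrable fun η => tens (f η) (g (-ξ - η)))
    (k l : Fin 3) : cv (Rf f) (Rf g) ξ k l = (cv f g (-ξ) k l).conj := by
  have h' : Integrable fun η => tens (Rf f η) (Rf g (ξ - η)) := by
    have h1 := h.comp_neg
    let c33 : A33 → A33 := fun F k l => (F k l).conj
    have hc : Continuous c33 := continuous_pi fun k => continuous_pi fun l =>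
      AA.conj_cont.comp ((continuous_apply l).comp (continuous_apply k))
    have hn : ∀ F, ‖c33 F‖ ≤ ‖F‖ := fun F =>
      (pi_norm_le_iff_of_nonneg (norm_nonneg F)).2 fun k =>
        (pi_norm_le_iff_of_nonneg (norm_nonneg F)).2 fun l =>
          (AA.conj_norm_le _).trans ((norm_le_pi_norm _ l).trans (norm_le_pi_norm _ k))
    have h2 : Integrable fun η => c33 (tens (f (-η)) (g (-ξ - -η))) :=
      h1.norm.mono' (hc.comp_aestronglyMeasurable h1.1)
        (Filter.Eventually.of_forall fun η => hn _)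
    refine h2.congr (Filter.Eventually.of_forall fun η => ?_)
    funext k l
    ext p
    show conj ((f (-η) k).val p * (g (-ξ - -η) l).val p)
      = conj ((f (-η) k).val p) * conj ((g (-(ξ - η)) l).val p)
    rw [map_mul]
    congr 4
    abel
  ext p
  rw [cv_val h', AA.val_conj, cv_val h, ← integral_neg_eq_self, ← integral_conj]
  refine integral_congr_ae (Filter.Eventually.of_forall fun η => ?_)
  show conj ((f (- -η) k).val p) * conj ((g (-(ξ - -η)) l).val p)
    = conj ((f η k).val p * (g (-ξ - η) l).val p)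
  rw [map_mul, neg_neg]
  congr 4
  abel

theorem ker_conj (hT : IsT' T) {μ : ℝ} (hμ : 0 ≤ μ) (ξ : E) (F : A33) :
    ker T μ ξ (fun k l => (F k l).conj) = cj (ker T μ (-ξ) F) := by
  funext j
  have hk : ks (-ξ) = ks ξ := by unfold ks; rw [norm_neg]
  rw [cj_apply, ker_apply, ker_apply, hk]
  ext p
  rw [AA.val_sum, AA.val_conj, AA.val_sum, map_sum]
  refine Finset.sum_congr rfl fun k _ => ?_
  rw [AA.val_sum, AA.val_sum, map_sum]
  refine Finset.sum_congr rfl fun l _ => ?_
  rw [AA.val_smul, AA.val_smul, T_conj hT (add_nonneg (ks_nonneg ξ) hμ), AA.val_conj, sy_neg,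
    map_mul, Complex.conj_conj]

end

end Pool.Agent.W785.QR
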