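import Mathlib
import Pool.Agent.W785.QR.Ex5

set_option autoImplicit false

open MeasureTheory Set
open scoped FourierTransform ContDiff RealInnerProductSpace ComplexConjugate Convolution

namespace Pool.Agent.W785.QR

noncomputable section

variable {T : ℝ → AA →L[ℂ] AA} {μ : ℝ}

/-- reflection on the space of fields -/
def RX (f : X) : X := (Rf_int (xint f)).toL1 (Rf f)

theorem RX_coe (f : X) : (RX f : E → A3) =ᵐ[volume] Rf f := Integrable.coeFn_toL1 _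

theorem Rf_add (f g : E → A3) : Rf (f + g) = Rf f + Rf g := by
  funext ξ j; ext p
  show conj ((f (-ξ) j).val p + (g (-ξ) j).val p) = conj ((f (-ξ) j).val p) + conj ((g (-ξ) j).val p)
  rw [map_add]

theorem Rf_neg (f : E → A3) : Rf (-f) = -Rf f := by
  funext ξ j; ext p
  show conj (-(f (-ξ) j).val p) = -conj ((f (-ξ) j).val p)
  rw [map_neg]

theorem RX_add (f g : X) : RX (f + g) = RX f + RX g := by
  refine Lp.ext ?_
  have h1 : Rf ((f + g : X) : E → A3) =ᵐ[volume] Rf ((f : E → A3) + (g : E → A3)) :=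
    Rf_congr (Lp.coeFn_add f g)
  filter_upwards [RX_coe (f + g), RX_coe f, RX_coe g, Lp.coeFn_add (RX f) (RX g), h1]
    with ξ a1 a2 a3 a4 a5
  rw [a1, a5, a4, Rf_add, Pi.add_apply, Pi.add_apply, a2, a3]

theorem RX_neg (f : X) : RX (-f) = -RX f := by
  refine Lp.ext ?_
  have h1 : Rf ((-f : X) : E → A3) =ᵐ[volume] Rf (-(f : E → A3)) :=
    Rf_congr (Lp.coeFn_neg f)
  filter_upwards [RX_coe (-f), RX_coe f, Lp.coeFn_neg (RX f), h1] with ξ a1 a2 a3 a4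
  rw [a1, a4, a3, Rf_neg, Pi.neg_apply, Pi.neg_apply, a2]

theorem RX_norm (f : X) : ‖RX f‖ = ‖f‖ := by
  rw [xnorm, xnorm]
  have h1 : ∫ ξ, ‖(RX f : E → A3) ξ‖ = ∫ ξ, ‖(f : E → A3) (-ξ)‖ := by
    refine integral_congr_ae ?_
    filter_upwards [RX_coe f] with ξ h
    rw [h]
    exact cj_norm _
  rw [h1]
  exact integral_neg_eq_self (fun ξ => ‖(f : E → A3) ξ‖) volume

theorem Bf_RX (hT : IsT' T) (hμ : 0 < μ) (f g : X) :
    Bf hT hμ (RX f) (RX g) = RX (Bf hT hμ f g) := by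
  refine Lp.ext ?_
  have h1 : cv (RX f : E → A3) (RX g) = cv (Rf f) (Rf g) := cv_congr (RX_coe f) (RX_coe g)
  have h2 : Rf (Bf hT hμ f g : E → A3) =ᵐ[volume] Rf fun ξ => ker T μ ξ (cv f g ξ) :=
    Rf_congr (Bf_coe hT hμ f g)
  have h3 : ∀ᵐ ξ : E, Integrable fun η => tens ((f : E → A3) η) ((g : E → A3) (-ξ - η)) :=
    (quasiMeasurePreserving_neg (volume : Measure E)).ae
      ((cv_ae (xint f) (xint g)).mono fun ξ h => h.2.1)
  filter_upwards [Bf_coe hT hμ (RX f) (RX g), RX_coe (Bf hT hμ f g), h2, h3] with ξ a1 a2 a3 a4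
  rw [a1, a2, a3, h1]
  have e : cv (Rf f) (Rf g) ξ = fun k l => (cv f g (-ξ) k l).conj := by
    funext k l; exact cv_Rf a4 k l
  rw [e, ker_conj hT hμ.le]
  rfl

/-- multiplication by a real valued element -/
def MX (e : AA) : X →L[ℂ] X := (mul3 e).compLpL 1 volume

theorem MX_coe (e : AA) (f : X) : (MX e f : E → A3) =ᵐ[volume] fun ξ => mul3 e (f ξ) :=
  ContinuousLinearMap.coeFn_compLpL (mul3 e) f

theorem MX_norm (e : AA) (f : X) : ‖MX e f‖ ≤ ‖e‖ * ‖f‖ := by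
  rw [xnorm, xnorm, ← integral_const_mul]
  have h1 : ∫ ξ, ‖(MX e f : E → A3) ξ‖ = ∫ ξ, ‖mul3 e ((f : E → A3) ξ)‖ := by
    refine integral_congr_ae ?_
    filter_upwards [MX_coe e f] with ξ h
    rw [h]
  rw [h1]
  exact integral_mono ((mul3 e).integrable_comp (xint f)).norm ((xint f).norm.const_mul _)
    fun ξ => mul3_norm e _

theorem cj_mul3 (e : AA) (he : e.conj = e) (f : A3) : cj (mul3 e f) = mul3 e (cj f) := by
  funext j; ext p
  show conj (e.val p * (f j).val p) = e.val p * conj ((f j).val p)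
  rw [map_mul, ← AA.val_conj e, he]

theorem em_conj (lam : ℝ) : (em lam).conj = em lam := by
  ext p
  rw [AA.val_conj, em_val, Complex.conj_ofReal]

theorem MX_RX (e : AA) (he : e.conj = e) (f : X) : MX e (RX f) = RX (MX e f) := by
  refine Lp.ext ?_
  have h1 : Rf (MX e f : E → A3) =ᵐ[volume] Rf fun ξ => mul3 e (f ξ) := Rf_congr (MX_coe e f)
  filter_upwards [MX_coe e (RX f), RX_coe f, RX_coe (MX e f), h1] with ξ a1 a2 a3 a4
  rw [a1, a2, a3, a4]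
  exact (cj_mul3 e he _).symm

theorem VV_herm {A0 : Fin 3 → E → ℂ} {Λ : ℝ} (h : Data A0 Λ) : Rf (VV A0) = VV A0 := by
  funext ξ j; ext p
  show conj (A0 j (-ξ) * (hh (-ξ)).val p) = A0 j ξ * (hh ξ).val p
  rw [map_mul, h.herm, Complex.conj_conj, hh_val, hh_val, norm_neg, Complex.conj_ofReal]

/-- the heat field as an element of the space of fields -/
def VX {A0 : Fin 3 → E → ℂ} {Λ : ℝ} (h : Data A0 Λ) : X := (VV_int h).toL1 (VV A0)

theorem VX_coe {A0 : Fin 3 → E → ℂ} {Λ : ℝ} (h : Data A0 Λ) :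
    (VX h : E → A3) =ᵐ[volume] VV A0 := Integrable.coeFn_toL1 _

theorem VX_norm {A0 : Fin 3 → E → ℂ} {Λ : ℝ} (h : Data A0 Λ) : ‖VX h‖ ≤ 3 * Λ := by
  rw [xnorm]
  have h1 : ∫ ξ, ‖(VX h : E → A3) ξ‖ = ∫ ξ, ‖VV A0 ξ‖ := by
    refine integral_congr_ae ?_
    filter_upwards [VX_coe h] with ξ h
    rw [h]
  rw [h1]
  exact VV_mass h

theorem VX_RX {A0 : Fin 3 → E → ℂ} {Λ : ℝ} (h : Data A0 Λ) : RX (VX h) = VX h := by
  refine Lp.ext ?_
  filter_upwards [RX_coe (VX h), VX_coe h, Rf_congr (VX_coe h)] with ξ a1 a2 a3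
  rw [a1, a2, a3, VV_herm h]

theorem VV_tens {A0 : Fin 3 → E → ℂ} {Λ : ℝ} (h : Data A0 Λ) (ξ : E) :
    Integrable (fun η => ‖VV A0 η‖ * ‖VV A0 (ξ - η)‖) ∧
      Integrable fun η => tens (VV A0 η) (VV A0 (ξ - η)) := by
  obtain ⟨B, -, hB⟩ := VV_bdd h
  exact tens_int (VV_int h) (VV_int h).1 (Filter.Eventually.of_forall hB) ξ

theorem VV_cv_val {A0 : Fin 3 → E → ℂ} {Λ : ℝ} (h : Data A0 Λ) (ξ : E) (k l : Fin 3) (p : KK) :
    (cv (VV A0) (VV A0) ξ k l).val p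
      = conv (heat p.1.1 A0 k) (heat p.1.1 A0 l) p.2.1 ξ := by
  rw [cv_val (VV_tens h ξ).2]
  simp only [VV_val, conv]

/-- the source term is small -/
theorem y_norm (hT : IsT' T) {lam : ℝ} (hl : 0 < lam) {A0 : Fin 3 → E → ℂ} {Λ ε : ℝ}
    (h : Data A0 Λ) (hs : SmallRes A0 ε) :
    ‖Bf hT hl (VX h) (MX (em (-lam)) (VX h))‖ ≤ ε := by
  obtain ⟨N, hN, hN1, hN2⟩ := hs
  rw [xnorm]
  refine le_trans (integral_mono_ae (xint _).norm hN ?_) hN1
  have h1 : (MX (em (-lam)) (VX h) : E → A3) =ᵐ[volume] fun ξ => mul3 (em (-lam)) (VV A0 ξ) := by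
    filter_upwards [MX_coe (em (-lam)) (VX h), VX_coe h] with ξ a1 a2
    rw [a1, a2]
  have h2 := cv_congr (VX_coe h) h1
  filter_upwards [Bf_coe hT hl (VX h) (MX (em (-lam)) (VX h))] with ξ a1
  rw [a1, h2, cv_mul_right (em (-lam)) (VV A0) (VV A0) _ (fun ξ => rfl) (VV_tens h ξ).2]
  have hN0 : 0 ≤ N ξ := (norm_nonneg _).trans
    (hN2 0 0 ⟨le_rfl, zero_le_one⟩ 0 ⟨by norm_num, le_rfl⟩ ξ)
  refine (pi_norm_le_iff_of_nonneg hN0).2 fun j => ?_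
  rw [ker_apply']
  refine (hT.bound' _ (by have := ks_nonneg ξ; linarith) _).trans ?_
  refine (AA.norm_le hN0).2 fun p => ?_
  have e : (∑ k, ∑ l, sy ξ j k l • (em (-lam) * cv (VV A0) (VV A0) ξ k l)).val p
      = (em (-lam)).val p * nl (heat p.1.1 A0) j p.2.1 ξ := by
    rw [AA.val_sum, nl, Finset.mul_sum]
    refine Finset.sum_congr rfl fun k _ => ?_
    rw [AA.val_sum, Finset.mul_sum]
    refine Finset.sum_congr rfl fun l _ => ?_
    rw [AA.val_smul, AA.val_mul, VV_cv_val h]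
    ring
  rw [e, norm_mul]
  have h3 : ‖(em (-lam)).val p‖ ≤ 1 := (AA.val_le _ _).trans (em_neg_norm hl.le)
  calc ‖(em (-lam)).val p‖ * ‖nl (heat p.1.1 A0) j p.2.1 ξ‖
      ≤ 1 * ‖nl (heat p.1.1 A0) j p.2.1 ξ‖ := mul_le_mul_of_nonneg_right h3 (norm_nonneg _)
    _ ≤ N ξ := by rw [one_mul]; exact hN2 j _ p.1.2 _ p.2.2 ξ

/-- the exponent -/
def lamb (Λ : ℝ) : ℝ := (216 * Λ) ^ 2 + 1

theorem lamb_pos (Λ : ℝ) : 0 < lamb Λ := by unfold lamb; positivity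

theorem sqrt_lamb {Λ : ℝ} (hΛ : 0 < Λ) : 1 ≤ Real.sqrt (lamb Λ) ∧ 216 * Λ ≤ Real.sqrt (lamb Λ) := by
  constructor
  · refine Real.le_sqrt_of_sq_le ?_
    unfold lamb; nlinarith [sq_nonneg (216 * Λ)]
  · refine Real.le_sqrt_of_sq_le ?_
    unfold lamb; linarith

/-- constants -/
theorem consts {Λ ε : ℝ} (hΛ : 0 < Λ) (hε : 0 < ε) (hε1 : ε ≤ 1 / (288 * Real.exp (lamb Λ))) :
    2 * (9 / Real.sqrt (lamb Λ)) * (3 * Λ) ≤ 1 / 4 ∧
      9 / Real.sqrt (lamb Λ) * Real.exp (lamb Λ) * (4 * ε) ≤ 1 / 8 := by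
  obtain ⟨h1, h2⟩ := sqrt_lamb hΛ
  have h0 : 0 < Real.sqrt (lamb Λ) := by linarith
  constructor
  · rw [show 2 * (9 / Real.sqrt (lamb Λ)) * (3 * Λ) = (54 * Λ) / Real.sqrt (lamb Λ) by ring,
      div_le_iff₀ h0]
    linarith
  · have h3 : 9 / Real.sqrt (lamb Λ) ≤ 9 := by
      rw [div_le_iff₀ h0]; linarith
    have h4 : Real.exp (lamb Λ) * ε ≤ 1 / 288 := by
      have := Real.exp_pos (lamb Λ)
      rw [le_div_iff₀ (by positivity)] at hε1
      linarith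
    have h5 : 0 < Real.exp (lamb Λ) := Real.exp_pos _
    calc 9 / Real.sqrt (lamb Λ) * Real.exp (lamb Λ) * (4 * ε)
        ≤ 9 * Real.exp (lamb Λ) * (4 * ε) := by gcongr
      _ = 36 * (Real.exp (lamb Λ) * ε) := by ring
      _ ≤ 36 * (1 / 288) := by gcongr
      _ = 1 / 8 := by norm_num

/-- the fixed point -/
theorem exists_q (hT : IsT' T) {Λ ε : ℝ} (hΛ : 0 < Λ) (hε : 0 < ε)
    (hε1 : ε ≤ 1 / (288 * Real.exp (lamb Λ))) {A0 : Fin 3 → E → ℂ} (h : Data A0 Λ)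
    (hs : SmallRes A0 ε) : ∃ q : X, ‖q‖ ≤ 4 * ε ∧ RX q = q ∧
      q = -(Bf hT (lamb_pos Λ) (VX h) (MX (em (-lamb Λ)) (VX h)) + Bf hT (lamb_pos Λ) (VX h) q
        + Bf hT (lamb_pos Λ) q (VX h) + Bf hT (lamb_pos Λ) (MX (em (lamb Λ)) q) q) := by
  obtain ⟨c1, c2⟩ := consts hΛ hε hε1
  have hκ : 0 ≤ 9 / Real.sqrt (lamb Λ) := by positivity
  obtain ⟨q, h1, h2, h3⟩ := fixed hκ (Real.exp_pos (lamb Λ)).le (BB hT (lamb_pos Λ))
    (BB_norm hT (lamb_pos Λ)) (MX (em (lamb Λ)))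
    (fun f => (MX_norm _ f).trans (mul_le_mul_of_nonneg_right (em_norm (lamb_pos Λ).le)
      (norm_nonneg f))) (VX h) (Bf hT (lamb_pos Λ) (VX h) (MX (em (-lamb Λ)) (VX h))) (4 * ε)
    (by positivity) ((y_norm hT (lamb_pos Λ) h hs).trans (by linarith))
    ((mul_le_mul_of_nonneg_left (VX_norm h) (by positivity)).trans c1) c2
  refine ⟨q, h1, ?_, h2⟩
  refine h3 (RX q) ((RX_norm q).le.trans h1) ?_
  have e1 : RX (MX (em (-lamb Λ)) (VX h)) = MX (em (-lamb Λ)) (VX h) := by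
    rw [← MX_RX _ (em_conj _), VX_RX h]
  have e2 := congrArg RX h2
  simp only [BB_apply] at e2 ⊢
  rw [RX_neg, RX_add, RX_add, RX_add, ← Bf_RX, ← Bf_RX, ← Bf_RX, ← Bf_RX, VX_RX h, e1,
    ← MX_RX _ (em_conj _)] at e2
  exact e2

end

end Pool.Agent.W785.QR
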