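import Mathlib
import Pool.Agent.W785.QR.Ex6

set_option autoImplicit false

open MeasureTheory Set
open scoped FourierTransform ContDiff RealInnerProductSpace ComplexConjugate Convolution

namespace Pool.Agent.W785.QR

noncomputable section

variable {T : ℝ → AA →L[ℂ] AA} {μ : ℝ}

theorem mul3_em_norm {lam : ℝ} (hl : 0 ≤ lam) (f : A3) :
    ‖mul3 (em lam) f‖ ≤ Real.exp lam * ‖f‖ :=
  (mul3_norm _ f).trans (mul_le_mul_of_nonneg_right (em_norm hl) (norm_nonneg f))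

theorem mul3_em_neg_norm {lam : ℝ} (hl : 0 ≤ lam) (f : A3) :
    ‖mul3 (em (-lam)) f‖ ≤ ‖f‖ :=
  (mul3_norm _ f).trans ((mul_le_mul_of_nonneg_right (em_neg_norm hl) (norm_nonneg f)).trans
    (one_mul _).le)

/-- the fixed point equation, pointwise -/
theorem q_eq (hT : IsT' T) {Λ : ℝ} {A0 : Fin 3 → E → ℂ} (h : Data A0 Λ) {lam : ℝ}
    (hl : 0 < lam) (q : X)
    (hq : q = -(Bf hT hl (VX h) (MX (em (-lam)) (VX h)) + Bf hT hl (VX h) q
        + Bf hT hl q (VX h) + Bf hT hl (MX (em lam) q) q)) :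
    ∀ᵐ ξ, (q : E → A3) ξ = -(ker T lam ξ (cv (VV A0) (fun ξ => mul3 (em (-lam)) (VV A0 ξ)) ξ)
      + ker T lam ξ (cv (VV A0) q ξ) + ker T lam ξ (cv q (VV A0) ξ)
      + ker T lam ξ (cv (fun ξ => mul3 (em lam) ((q : E → A3) ξ)) q ξ)) := by
  have h1 : (MX (em (-lam)) (VX h) : E → A3) =ᵐ[volume] fun ξ => mul3 (em (-lam)) (VV A0 ξ) := by
    filter_upwards [MX_coe (em (-lam)) (VX h), VX_coe h] with ξ a1 a2
    rw [a1, a2]
  have e1 := cv_congr (VX_coe h) h1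
  have e2 := cv_congr (VX_coe h) (Filter.EventuallyEq.refl _ (q : E → A3))
  have e3 := cv_congr (Filter.EventuallyEq.refl _ (q : E → A3)) (VX_coe h)
  have e4 := cv_congr (MX_coe (em lam) q) (Filter.EventuallyEq.refl _ (q : E → A3))
  have h0 : (q : E → A3) =ᵐ[volume] ((-(Bf hT hl (VX h) (MX (em (-lam)) (VX h)) + Bf hT hl (VX h) q
        + Bf hT hl q (VX h) + Bf hT hl (MX (em lam) q) q) : X) : E → A3) := by
    rw [← hq]
  filter_upwards [h0, Lp.coeFn_neg (Bf hT hl (VX h) (MX (em (-lam)) (VX h)) + Bf hT hl (VX h) q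
        + Bf hT hl q (VX h) + Bf hT hl (MX (em lam) q) q),
    Lp.coeFn_add (Bf hT hl (VX h) (MX (em (-lam)) (VX h)) + Bf hT hl (VX h) q
        + Bf hT hl q (VX h)) (Bf hT hl (MX (em lam) q) q),
    Lp.coeFn_add (Bf hT hl (VX h) (MX (em (-lam)) (VX h)) + Bf hT hl (VX h) q)
      (Bf hT hl q (VX h)),
    Lp.coeFn_add (Bf hT hl (VX h) (MX (em (-lam)) (VX h))) (Bf hT hl (VX h) q),
    Bf_coe hT hl (VX h) (MX (em (-lam)) (VX h)), Bf_coe hT hl (VX h) q, Bf_coe hT hl q (VX h),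
    Bf_coe hT hl (MX (em lam) q) q] with ξ b0 b1 b2 b3 b4 b5 b6 b7 b8
  rw [b0, b1, Pi.neg_apply, b2, Pi.add_apply, b3, Pi.add_apply, b4, Pi.add_apply, b5, b6, b7, b8,
    e1, e2, e3, e4]

/-- change of variables in a convolution -/
theorem swap (u v : E → ℝ) (ξ : E) : ∫ η, u η * v (ξ - η) = ∫ η, v η * u (ξ - η) := by
  have := integral_sub_left_eq_self (fun η => v η * u (ξ - η)) volume ξ
  rw [← this]
  refine integral_congr_ae (Filter.Eventually.of_forall fun η => ?_)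
  show u η * v (ξ - η) = v (ξ - η) * u (ξ - (ξ - η))
  rw [sub_sub_cancel, mul_comm]

/-- boundedness of the fixed point -/
theorem q_bdd (hb : S_bound) (hT : IsT' T) {lam m B : ℝ} (hl : 0 < lam) (hm : 0 ≤ m)
    {V W q Mq : E → A3} (hV : Integrable V) (hVs : StronglyMeasurable V) (hB : ∀ ξ, ‖V ξ‖ ≤ B)
    (hW : Integrable W) (hWn : ∀ ξ, ‖W ξ‖ ≤ B) (hqi : Integrable q) (hqs : StronglyMeasurable q)
    (hM : Integrable Mq) (hMn : ∀ ξ, ‖Mq ξ‖ ≤ m * ‖q ξ‖)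
    (hc : 9 / Real.sqrt lam * (2 * (∫ ξ, ‖V ξ‖) + m * ∫ ξ, ‖q ξ‖) ≤ 1 / 2)
    (hq : ∀ᵐ ξ, q ξ = -(ker T lam ξ (cv V W ξ) + ker T lam ξ (cv V q ξ) + ker T lam ξ (cv q V ξ)
      + ker T lam ξ (cv Mq q ξ))) :
    ∃ B : ℝ, ∀ᵐ ξ, ‖q ξ‖ ≤ B := by
  set κ := 9 / Real.sqrt lam with hκd
  have hκ : 0 ≤ κ := by positivity
  have hB0 : 0 ≤ B := (norm_nonneg _).trans (hB 0)
  set hf : E → ℝ := fun η => κ * (2 * ‖V η‖ + m * ‖q η‖) with hhf
  have hfi : Integrable hf :=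
    ((hV.norm.const_mul 2).add (hqi.norm.const_mul m)).const_mul κ
  have hfm : Measurable hf :=
    ((hVs.norm.measurable.const_mul 2).add (hqs.norm.measurable.const_mul _)).const_mul κ
  have hmass : ∫ ξ, hf ξ ≤ 1 / 2 := by
    have e : ∫ ξ, hf ξ = κ * (2 * (∫ ξ, ‖V ξ‖) + m * ∫ ξ, ‖q ξ‖) := by
      rw [← integral_const_mul, ← integral_const_mul, ← integral_add (hV.norm.const_mul 2)
        (hqi.norm.const_mul m), ← integral_const_mul]
    rw [e]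
    exact hc
  refine ⟨2 * (κ * (B * ∫ ξ, ‖V ξ‖)), ?_⟩
  have k1 : 0 ≤ 2 * (κ * (B * ∫ ξ, ‖V ξ‖)) := by
    have : 0 ≤ ∫ ξ, ‖V ξ‖ := integral_nonneg fun _ => norm_nonneg _
    positivity
  have k2 : ∀ᵐ ξ, ‖ker T lam ξ (cv V W ξ)‖ ≤ 2 * (κ * (B * ∫ ξ, ‖V ξ‖)) / 2 := by
    refine Filter.Eventually.of_forall fun ξ => ?_
    have h1 := ker_norm1 hT hl ξ (cv V W ξ)
    have h2 := tens_int hV hW.1 (B := B) (Filter.Eventually.of_forall hWn) ξ
    have h3 : ‖cv V W ξ‖ ≤ ∫ η, ‖V η‖ * ‖W (ξ - η)‖ := cv_le h2.1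
    have h4 : ∫ η, ‖V η‖ * ‖W (ξ - η)‖ ≤ B * ∫ ξ, ‖V ξ‖ := by
      rw [← integral_const_mul]
      refine integral_mono h2.1 (hV.norm.const_mul B) fun η => ?_
      show ‖V η‖ * ‖W (ξ - η)‖ ≤ B * ‖V η‖
      rw [mul_comm B]
      exact mul_le_mul_of_nonneg_left (hWn _) (norm_nonneg _)
    have h5 : ‖ker T lam ξ (cv V W ξ)‖ ≤ κ * (B * ∫ ξ, ‖V ξ‖) :=
      h1.trans (mul_le_mul_of_nonneg_left (h3.trans h4) hκ)
    linarith
  have k3 : ∀ᵐ ξ, ‖q ξ‖ ≤ ‖ker T lam ξ (cv V W ξ)‖ + ∫ η, hf η * ‖q (ξ - η)‖ := by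
    filter_upwards [hq, cv_ae hV hqi, cv_ae hqi hV, cv_ae hM hqi, cv_ae hqi hqi]
      with ξ b0 b1 b2 b3 b4
    have n1 := ker_norm1 hT hl ξ (cv V q ξ)
    have n2 := ker_norm1 hT hl ξ (cv q V ξ)
    have n3 := ker_norm1 hT hl ξ (cv Mq q ξ)
    have m1 : ‖ker T lam ξ (cv V q ξ)‖ ≤ κ * ∫ η, ‖V η‖ * ‖q (ξ - η)‖ :=
      n1.trans (mul_le_mul_of_nonneg_left b1.2.2 hκ)
    have m2 : ‖ker T lam ξ (cv q V ξ)‖ ≤ κ * ∫ η, ‖V η‖ * ‖q (ξ - η)‖ := by
      refine n2.trans (mul_le_mul_of_nonneg_left (b2.2.2.trans ?_) hκ)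
      rw [swap (fun η => ‖q η‖) (fun η => ‖V η‖)]
    have m3 : ‖ker T lam ξ (cv Mq q ξ)‖ ≤ κ * (m * ∫ η, ‖q η‖ * ‖q (ξ - η)‖) := by
      refine n3.trans (mul_le_mul_of_nonneg_left (b3.2.2.trans ?_) hκ)
      rw [← integral_const_mul]
      refine integral_mono b3.1 (b4.1.const_mul _) fun η => ?_
      show ‖Mq η‖ * ‖q (ξ - η)‖ ≤ m * (‖q η‖ * ‖q (ξ - η)‖)
      rw [← mul_assoc]
      exact mul_le_mul_of_nonneg_right (hMn _) (norm_nonneg _)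
    have e : ∫ η, hf η * ‖q (ξ - η)‖
        = κ * (∫ η, ‖V η‖ * ‖q (ξ - η)‖) + κ * (∫ η, ‖V η‖ * ‖q (ξ - η)‖)
          + κ * (m * ∫ η, ‖q η‖ * ‖q (ξ - η)‖) := by
      have i1 := b1.1.const_mul κ
      have i2 := (b4.1.const_mul m).const_mul κ
      have j1 := integral_add i1 i1
      have j2 : ∫ η, (κ * (‖V η‖ * ‖q (ξ - η)‖) + κ * (‖V η‖ * ‖q (ξ - η)‖))
          + κ * (m * (‖q η‖ * ‖q (ξ - η)‖)) = _ := integral_add (i1.add i1) i2
      have j3 : ∫ η, κ * (‖V η‖ * ‖q (ξ - η)‖) + κ * (‖V η‖ * ‖q (ξ - η)‖) = _ := j1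
      rw [← integral_const_mul, ← integral_const_mul, ← integral_const_mul, ← j3, ← j2]
      refine integral_congr_ae (Filter.Eventually.of_forall fun η => ?_)
      show κ * (2 * ‖V η‖ + m * ‖q η‖) * ‖q (ξ - η)‖ = κ * (‖V η‖ * ‖q (ξ - η)‖)
        + κ * (‖V η‖ * ‖q (ξ - η)‖) + κ * (m * (‖q η‖ * ‖q (ξ - η)‖))
      ring
    rw [e]
    have n0 : ‖q ξ‖ ≤ ‖ker T lam ξ (cv V W ξ)‖ + ‖ker T lam ξ (cv V q ξ)‖
        + ‖ker T lam ξ (cv q V ξ)‖ + ‖ker T lam ξ (cv Mq q ξ)‖ := by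
      have := congrArg norm b0
      rw [norm_neg] at this
      refine this.le.trans ?_
      exact (norm_add_le _ _).trans (add_le_add ((norm_add_le _ _).trans
            (add_le_add (norm_add_le _ _) le_rfl)) le_rfl)
    linarith
  exact hb (fun ξ => ‖q ξ‖) (fun ξ => ‖ker T lam ξ (cv V W ξ)‖) hf
    (2 * (κ * (B * ∫ ξ, ‖V ξ‖))) k1 hqi.norm hqs.norm.measurable (fun ξ => norm_nonneg _) hfi
    hfm (fun ξ => by positivity) hmass k2 k3

/-- bilinearity of the convolution, pointwise -/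
theorem cv_bil {V M : E → A3} {ξ : E}
    (h1 : Integrable fun η => tens (V η) (V (ξ - η)))
    (h2 : Integrable fun η => tens (V η) (M (ξ - η)))
    (h3 : Integrable fun η => tens (M η) (V (ξ - η)))
    (h4 : Integrable fun η => tens (M η) (M (ξ - η))) :
    cv (fun ξ => V ξ + M ξ) (fun ξ => V ξ + M ξ) ξ
      = cv V V ξ + cv V M ξ + cv M V ξ + cv M M ξ := by
  show ∫ η, tens (V η + M η) (V (ξ - η) + M (ξ - η)) = _
  have e : ∀ η, tens (V η + M η) (V (ξ - η) + M (ξ - η))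
      = tens (V η) (V (ξ - η)) + tens (V η) (M (ξ - η)) + tens (M η) (V (ξ - η))
        + tens (M η) (M (ξ - η)) := by
    intro η
    rw [map_add, map_add, _root_.add_apply, _root_.add_apply]
    abel
  simp only [e]
  have j1 := integral_add h1 h2
  have j2 := integral_add (h1.add h2) h3
  have j3 := integral_add ((h1.add h2).add h3) h4
  simp only [Pi.add_apply] at j1 j2 j3
  rw [j3, j2, j1]
  rfl

/-- the field `V + M q` is a solution -/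
theorem a_eq (hT : IsT' T) {lam : ℝ} (hl : 0 ≤ lam) {V W q Mq : E → A3}
    (hW : ∀ ξ, W ξ = mul3 (em (-lam)) (V ξ)) (hM : ∀ ξ, Mq ξ = mul3 (em lam) (q ξ)) {ξ : E}
    (h1 : Integrable fun η => tens (V η) (V (ξ - η)))
    (h2 : Integrable fun η => tens (V η) (q (ξ - η)))
    (h3 : Integrable fun η => tens (q η) (V (ξ - η)))
    (h4 : Integrable fun η => tens (Mq η) (q (ξ - η)))
    (h2' : Integrable fun η => tens (V η) (Mq (ξ - η)))
    (h3' : Integrable fun η => tens (Mq η) (V (ξ - η)))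
    (h4' : Integrable fun η => tens (Mq η) (Mq (ξ - η)))
    (hq : q ξ = -(ker T lam ξ (cv V W ξ) + ker T lam ξ (cv V q ξ) + ker T lam ξ (cv q V ξ)
      + ker T lam ξ (cv Mq q ξ))) :
    V ξ + Mq ξ = V ξ - ker T 0 ξ (cv (fun ξ => V ξ + Mq ξ) (fun ξ => V ξ + Mq ξ) ξ) := by
  have e1 : cv V V ξ = fun k l => em lam * cv V W ξ k l := by
    rw [cv_mul_right (em (-lam)) V V W hW h1]
    funext k l
    exact (em_mul lam _).symm
  have e2 := cv_mul_right (em lam) V q Mq hM h2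
  have e3 := cv_mul_left (em lam) q Mq V hM h3
  have e4 := cv_mul_right (em lam) Mq q Mq hM h4
  rw [cv_bil h1 h2' h3' h4', map_add, map_add, map_add, e1, e2, e3, e4, ker_em hT hl, ker_em hT hl,
    ker_em hT hl, ker_em hT hl, ← map_add, ← map_add, ← map_add, hM, sub_eq_add_neg, ← map_neg,
    ← hq]

end

end Pool.Agent.W785.QR
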