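import Mathlib
import Pool.Agent.W785.QR.Ex7

set_option autoImplicit false

open MeasureTheory Set
open scoped FourierTransform ContDiff RealInnerProductSpace ComplexConjugate Convolution

namespace Pool.Agent.W785.QR

noncomputable section

variable {T : ℝ → AA →L[ℂ] AA}

/-- existence of the field, almost everywhere version -/
theorem exists_a (hb : S_bound) (hT : IsT' T) {Λ ε : ℝ} (hΛ : 0 < Λ) (hε : 0 < ε)
    (hε1 : ε ≤ 1 / (288 * Real.exp (lamb Λ))) {A0 : Fin 3 → E → ℂ} (h : Data A0 Λ)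
    (hs : SmallRes A0 ε) : ∃ a : E → A3, StronglyMeasurable a ∧ Integrable a ∧
      (∃ B : ℝ, ∀ᵐ ξ, ‖a ξ‖ ≤ B) ∧ Rf a =ᵐ[volume] a ∧
      (∀ᵐ ξ, a ξ = VV A0 ξ - ker T 0 ξ (cv a a ξ)) ∧
      ∫ ξ, ‖a ξ - VV A0 ξ‖ ≤ 4 * Real.exp (lamb Λ) * ε := by
  obtain ⟨c1, c2⟩ := consts hΛ hε hε1
  obtain ⟨q, h1, h2, h3⟩ := exists_q hT hΛ hε hε1 h hs
  have h3' := q_eq hT h (lamb_pos Λ) q h3
  obtain ⟨B, hB0, hB⟩ := VV_bdd h
  have hl := lamb_pos Λ
  have hV := VV_int h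
  have hVs := VV_smeas h.meas
  have hqi := xint q
  have hqs : StronglyMeasurable (q : E → A3) := Lp.stronglyMeasurable q
  obtain ⟨Mq, hMq⟩ : ∃ Mq : E → A3, ∀ ξ, Mq ξ = mul3 (em (lamb Λ)) ((q : E → A3) ξ) :=
    ⟨_, fun ξ => rfl⟩
  have hMqf : Mq = fun ξ => mul3 (em (lamb Λ)) ((q : E → A3) ξ) := funext hMq
  obtain ⟨W, hW⟩ : ∃ W : E → A3, ∀ ξ, W ξ = mul3 (em (-lamb Λ)) (VV A0 ξ) := ⟨_, fun ξ => rfl⟩
  have hWf : W = fun ξ => mul3 (em (-lamb Λ)) (VV A0 ξ) := funext hW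
  have hMi : Integrable Mq := by rw [hMqf]; exact (mul3 (em (lamb Λ))).integrable_comp hqi
  have hMs : StronglyMeasurable Mq := by
    rw [hMqf]
    exact (mul3 (em (lamb Λ))).continuous.comp_stronglyMeasurable hqs
  have hWi : Integrable W := by rw [hWf]; exact (mul3 (em (-lamb Λ))).integrable_comp hV
  have hMn : ∀ ξ, ‖Mq ξ‖ ≤ Real.exp (lamb Λ) * ‖(q : E → A3) ξ‖ := fun ξ => by
    rw [hMq]; exact mul3_em_norm hl.le _
  have hWn : ∀ ξ, ‖W ξ‖ ≤ B := fun ξ => by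
    rw [hW]; exact (mul3_em_neg_norm hl.le _).trans (hB ξ)
  rw [← hMqf, ← hWf] at h3'
  have hc : 9 / Real.sqrt (lamb Λ) * (2 * (∫ ξ, ‖VV A0 ξ‖)
      + Real.exp (lamb Λ) * ∫ ξ, ‖(q : E → A3) ξ‖) ≤ 1 / 2 := by
    rw [← xnorm q]
    have := VV_mass h
    have hκ : 0 ≤ 9 / Real.sqrt (lamb Λ) := by positivity
    calc 9 / Real.sqrt (lamb Λ) * (2 * (∫ ξ, ‖VV A0 ξ‖) + Real.exp (lamb Λ) * ‖q‖)
        ≤ 9 / Real.sqrt (lamb Λ) * (2 * (3 * Λ) + Real.exp (lamb Λ) * (4 * ε)) := by gcongr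
      _ = 2 * (9 / Real.sqrt (lamb Λ)) * (3 * Λ)
          + 9 / Real.sqrt (lamb Λ) * Real.exp (lamb Λ) * (4 * ε) := by ring
      _ ≤ 1 / 4 + 1 / 8 := add_le_add c1 c2
      _ ≤ 1 / 2 := by norm_num
  obtain ⟨Bq, hBq⟩ := q_bdd hb hT hl (Real.exp_pos (lamb Λ)).le hV hVs hB hWi hWn hqi hqs hMi hMn
    hc h3'
  have hBM : ∀ᵐ ξ, ‖Mq ξ‖ ≤ Real.exp (lamb Λ) * Bq := by
    filter_upwards [hBq] with ξ h
    exact (hMn ξ).trans (mul_le_mul_of_nonneg_left h (Real.exp_pos _).le)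
  refine ⟨fun ξ => VV A0 ξ + Mq ξ, hVs.add hMs, hV.add hMi, ⟨B + Real.exp (lamb Λ) * Bq, ?_⟩,
    ?_, ?_, ?_⟩
  · filter_upwards [hBM] with ξ h
    exact (norm_add_le _ _).trans (add_le_add (hB ξ) h)
  · have e1 : Rf (q : E → A3) =ᵐ[volume] (q : E → A3) := by
      have := RX_coe q
      rw [h2] at this
      exact this.symm
    filter_upwards [e1] with ξ h5
    have e2 : Rf (fun ξ => VV A0 ξ + Mq ξ) = Rf (VV A0) + Rf Mq := Rf_add (VV A0) Mq
    rw [e2, Pi.add_apply, VV_herm h]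
    congr 1
    show cj (Mq (-ξ)) = Mq ξ
    rw [hMq, hMq, cj_mul3 _ (em_conj _)]
    congr 1
  · filter_upwards [h3'] with ξ h5
    have t1 := VV_tens h ξ
    have t2 := tens_int hV hqi.1 hBq ξ
    have t3 := tens_int hqi hV.1 (Filter.Eventually.of_forall hB) ξ
    have t4 := tens_int hMi hqi.1 hBq ξ
    have t2' := tens_int hV hMi.1 hBM ξ
    have t3' := tens_int hMi hV.1 (Filter.Eventually.of_forall hB) ξ
    have t4' := tens_int hMi hMi.1 hBM ξ
    exact a_eq hT hl.le hW hMq t1.2 t2.2 t3.2 t4.2 t2'.2 t3'.2 t4'.2 h5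
  · have e : ∀ ξ, ‖VV A0 ξ + Mq ξ - VV A0 ξ‖ ≤ Real.exp (lamb Λ) * ‖(q : E → A3) ξ‖ := by
      intro ξ
      rw [add_sub_cancel_left]
      exact hMn ξ
    calc ∫ ξ, ‖VV A0 ξ + Mq ξ - VV A0 ξ‖ ≤ ∫ ξ, Real.exp (lamb Λ) * ‖(q : E → A3) ξ‖ :=
          integral_mono ((hV.add hMi).sub hV).norm (hqi.norm.const_mul _) e
      _ = Real.exp (lamb Λ) * ‖q‖ := by rw [integral_const_mul, ← xnorm]
      _ ≤ Real.exp (lamb Λ) * (4 * ε) := mul_le_mul_of_nonneg_left h1 (Real.exp_pos _).le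
      _ = 4 * Real.exp (lamb Λ) * ε := by ring

theorem ker_smeas (hT : IsT' T) {μ : ℝ} (hμ : 0 ≤ μ) {F : E → A33}
    (hF : StronglyMeasurable F) : StronglyMeasurable (fun ξ => ker T μ ξ (F ξ)) := by
  have h2a : ∀ k, StronglyMeasurable (fun ξ => F ξ k) := fun k =>
    (continuous_apply k).comp_stronglyMeasurable hF
  have h2 : ∀ k l, StronglyMeasurable (fun ξ => F ξ k l) := fun k l =>
    (continuous_apply l).comp_stronglyMeasurable (h2a k)
  have h3 : ∀ k l, StronglyMeasurable (fun ξ => T (ks ξ + μ) (F ξ k l)) := fun k l => by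
    have h4 : StronglyMeasurable (fun ξ => ((ξ, F ξ k l) : E × AA)) :=
      stronglyMeasurable_id.prodMk (h2 k l)
    have h5 := (T_joint hT hμ).comp_stronglyMeasurable h4
    exact h5
  refine smeas_pi fun j => ?_
  have e : (fun ξ => ker T μ ξ (F ξ) j)
      = fun ξ => ∑ k, ∑ l, sy ξ j k l • T (ks ξ + μ) (F ξ k l) := by
    funext ξ; exact ker_apply T μ ξ (F ξ) j
  rw [e]
  refine Finset.stronglyMeasurable_fun_sum _ fun k _ =>
    Finset.stronglyMeasurable_fun_sum _ fun l _ => ?_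
  exact ((sy_meas j k l).stronglyMeasurable).smul (h3 k l)

theorem cv_smeas {f g : E → A3} (hf : StronglyMeasurable f) (hg : StronglyMeasurable g) :
    StronglyMeasurable (cv f g) := by
  have h1 : StronglyMeasurable (fun x : E × E => tens (f x.2) (g (x.1 - x.2))) := by
    have a1 : StronglyMeasurable fun x : E × E => f x.2 := hf.comp_measurable measurable_snd
    have a2 : StronglyMeasurable fun x : E × E => g (x.1 - x.2) :=
      hg.comp_measurable (measurable_fst.sub measurable_snd)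
    have hc : Continuous fun x : A3 × A3 => tens x.1 x.2 := tens.continuous₂
    have h5 := hc.comp_stronglyMeasurable (a1.prodMk a2)
    exact h5
  have h2 := h1.integral_prod_right' (ν := (volume : Measure E))
  exact h2

end

end Pool.Agent.W785.QR
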