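import Mathlib
import Pool.Agent.W785.QR.Ex8

set_option autoImplicit false

open MeasureTheory Set
open scoped FourierTransform ContDiff RealInnerProductSpace ComplexConjugate Convolution

namespace Pool.Agent.W785.QR

noncomputable section

variable {T : ℝ → AA →L[ℂ] AA}

theorem peetre (ξ η : E) (j : ℕ) : (1 + ‖ξ‖) ^ j ≤ (1 + ‖η‖) ^ j * (1 + ‖ξ - η‖) ^ j := by
  rw [← mul_pow]
  refine pow_le_pow_left₀ (by positivity) ?_ j
  have h1 : ‖ξ‖ ≤ ‖η‖ + ‖ξ - η‖ := by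
    calc ‖ξ‖ = ‖η + (ξ - η)‖ := by rw [add_sub_cancel]
      _ ≤ _ := norm_add_le _ _
  nlinarith [norm_nonneg η, norm_nonneg (ξ - η), mul_nonneg (norm_nonneg η) (norm_nonneg (ξ - η))]

/-- decay of a convolution -/
theorem conv_decay {f : E → ℝ} (h0 : ∀ ξ, 0 ≤ f ξ) (hm : Measurable f) (j : ℕ) {C : ℝ}
    (hC : ∀ᵐ ξ, f ξ * (1 + ‖ξ‖) ^ j ≤ C) (hi : Integrable fun ξ => f ξ * (1 + ‖ξ‖) ^ j) (ξ : E) :
    (∫ η, f η * f (ξ - η)) * (1 + ‖ξ‖) ^ j ≤ C * ∫ η, f η * (1 + ‖η‖) ^ j := by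
  have q := quasiMeasurePreserving_sub_left (volume : Measure E) ξ
  have hB' : ∀ᵐ η, f (ξ - η) * (1 + ‖ξ - η‖) ^ j ≤ C := q.ae hC
  rw [← integral_mul_const, ← integral_const_mul]
  refine integral_mono_of_nonneg (Filter.Eventually.of_forall fun η => ?_) (hi.const_mul C) ?_
  · have := h0 η
    have := h0 (ξ - η)
    positivity
  · filter_upwards [hB'] with η h1
    show f η * f (ξ - η) * (1 + ‖ξ‖) ^ j ≤ C * (f η * (1 + ‖η‖) ^ j)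
    have a1 := h0 η
    have a2 := h0 (ξ - η)
    calc f η * f (ξ - η) * (1 + ‖ξ‖) ^ j
        ≤ f η * f (ξ - η) * ((1 + ‖η‖) ^ j * (1 + ‖ξ - η‖) ^ j) :=
          mul_le_mul_of_nonneg_left (peetre ξ η j) (mul_nonneg a1 a2)
      _ = (f η * (1 + ‖η‖) ^ j) * (f (ξ - η) * (1 + ‖ξ - η‖) ^ j) := by ring
      _ ≤ (f η * (1 + ‖η‖) ^ j) * C := mul_le_mul_of_nonneg_left h1 (by positivity)
      _ = C * (f η * (1 + ‖η‖) ^ j) := mul_comm _ _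

theorem exists_b (hb : S_bound) (hd : S_decay) (hT : IsT' T) {Λ ε : ℝ} (hΛ : 0 < Λ) (hε : 0 < ε)
    (hε1 : ε ≤ 1 / (288 * Real.exp (lamb Λ))) {A0 : Fin 3 → E → ℂ} (h : Data A0 Λ)
    (hs : SmallRes A0 ε) : ∃ b : E → A3, StronglyMeasurable b ∧ Integrable b ∧
      (∀ j : ℕ, ∃ C : ℝ, ∀ ξ, ‖b ξ‖ * (1 + ‖ξ‖) ^ j ≤ C) ∧ (∀ ξ, Rf b ξ = b ξ) ∧
      (∀ ξ, b ξ = VV A0 ξ - ker T 0 ξ (cv b b ξ)) ∧
      ∫ ξ, ‖b ξ - VV A0 ξ‖ ≤ 4 * Real.exp (lamb Λ) * ε := by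
  obtain ⟨a, hs, hi, ⟨B, hB⟩, hR, heq, hclose⟩ := exists_a hb hT hΛ hε hε1 h hs
  obtain ⟨BV, hBV0, hBV⟩ := VV_bdd h
  obtain ⟨R, hRs⟩ := VV_supp h
  have hti : ∀ ξ, Integrable (fun η => ‖a η‖ * ‖a (ξ - η)‖) ∧
      Integrable fun η => tens (a η) (a (ξ - η)) := fun ξ => tens_int hi hi.1 hB ξ
  have hle : ∀ ξ, ‖VV A0 ξ - ker T 0 ξ (cv a a ξ)‖
      ≤ ‖VV A0 ξ‖ + 72 * Real.pi / (1 + ‖ξ‖) * ∫ η, ‖a η‖ * ‖a (ξ - η)‖ := by
    intro ξ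
    refine (norm_sub_le _ _).trans (add_le_add le_rfl ((ker_norm0 hT ξ _).trans ?_))
    have := Real.pi_pos
    exact mul_le_mul_of_nonneg_left (cv_le (hti ξ).1) (by positivity)
  have hdec := hd (fun ξ => ‖a ξ‖) (fun ξ => ‖VV A0 ξ‖) (72 * Real.pi) (max B BV) hi.norm
    hs.norm.measurable (fun ξ => norm_nonneg _) (hB.mono fun ξ h => h.trans (le_max_left _ _))
    (VV_smeas h.meas).norm.measurable (fun ξ => ⟨norm_nonneg _, (hBV ξ).trans (le_max_right _ _)⟩)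
    ⟨R, fun ξ hξ => by rw [hRs ξ hξ, norm_zero]⟩ (by have := Real.pi_pos; positivity)
    (heq.mono fun ξ h => by
      calc ‖a ξ‖ = ‖VV A0 ξ - ker T 0 ξ (cv a a ξ)‖ := congrArg norm h
        _ ≤ _ := hle ξ)
  obtain ⟨b, hbd⟩ : ∃ b : E → A3, ∀ ξ, b ξ = VV A0 ξ - ker T 0 ξ (cv a a ξ) := ⟨_, fun ξ => rfl⟩
  have hba : b =ᵐ[volume] a := by
    filter_upwards [heq] with ξ h
    rw [hbd, ← h]
  have hcv : cv b b = cv a a := cv_congr hba hba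
  have hbs : StronglyMeasurable b := by
    have : b = fun ξ => VV A0 ξ - ker T 0 ξ (cv a a ξ) := funext hbd
    rw [this]
    exact (VV_smeas h.meas).sub (ker_smeas hT le_rfl (cv_smeas hs hs))
  refine ⟨b, hbs, hi.congr hba.symm, fun j => ?_, fun ξ => ?_, fun ξ => ?_, ?_⟩
  · obtain ⟨Cj, hCj, hij⟩ := hdec j
    refine ⟨BV * (1 + |R|) ^ j + 72 * Real.pi * (Cj * ∫ η, ‖a η‖ * (1 + ‖η‖) ^ j), fun ξ => ?_⟩
    have h1 := conv_decay (f := fun ξ => ‖a ξ‖) (fun ξ => norm_nonneg _) hs.norm.measurable j hCj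
      hij ξ
    have h2 : ‖VV A0 ξ‖ * (1 + ‖ξ‖) ^ j ≤ BV * (1 + |R|) ^ j := by
      by_cases hξ : R < ‖ξ‖
      · rw [hRs ξ hξ, norm_zero, zero_mul]; positivity
      · push Not at hξ
        have : ‖ξ‖ ≤ |R| := hξ.trans (le_abs_self R)
        exact mul_le_mul (hBV ξ) (pow_le_pow_left₀ (by positivity) (by linarith) j)
          (by positivity) hBV0
    have h3 : 72 * Real.pi / (1 + ‖ξ‖) ≤ 72 * Real.pi := by
      have := Real.pi_pos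
      exact div_le_self (by positivity) (by have := norm_nonneg ξ; linarith)
    have h4 : 0 ≤ ∫ η, ‖a η‖ * ‖a (ξ - η)‖ := integral_nonneg fun η => by positivity
    have h5 := hle ξ
    rw [← hbd] at h5
    calc ‖b ξ‖ * (1 + ‖ξ‖) ^ j
        ≤ (‖VV A0 ξ‖ + 72 * Real.pi * ∫ η, ‖a η‖ * ‖a (ξ - η)‖) * (1 + ‖ξ‖) ^ j :=
          mul_le_mul_of_nonneg_right
            (h5.trans (add_le_add le_rfl (mul_le_mul_of_nonneg_right h3 h4))) (by positivity)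
      _ = ‖VV A0 ξ‖ * (1 + ‖ξ‖) ^ j
          + 72 * Real.pi * ((∫ η, ‖a η‖ * ‖a (ξ - η)‖) * (1 + ‖ξ‖) ^ j) := by ring
      _ ≤ _ := add_le_add h2 (mul_le_mul_of_nonneg_left h1
          (by have := Real.pi_pos; positivity))
  · show cj (b (-ξ)) = b ξ
    have h6 : (fun k l => (cv a a (-ξ) k l).conj) = cv a a ξ := by
      funext k l
      rw [← cv_Rf (hti (-ξ)).2 k l]
      exact congrFun (congrFun (congrFun (cv_congr hR hR) ξ) k) l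
    have h7 := ker_conj hT le_rfl ξ (cv a a (-ξ))
    rw [h6] at h7
    have h8 : cj (b (-ξ)) = cj (VV A0 (-ξ)) - cj (ker T 0 (-ξ) (cv a a (-ξ))) := by
      rw [hbd]
      funext j; ext p
      simp
    have h9 : cj (VV A0 (-ξ)) = VV A0 ξ := congrFun (VV_herm h) ξ
    rw [h8, h9, ← h7, ← hbd]
  · rw [hcv, ← hbd]
  · refine le_trans (le_of_eq ?_) hclose
    refine integral_congr_ae ?_
    filter_upwards [hba] with ξ h
    rw [h]

end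

end Pool.Agent.W785.QR
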