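import Mathlib
import Pool.Agent.W785.QR.Ex9

set_option autoImplicit false

open MeasureTheory Set
open scoped FourierTransform ContDiff RealInnerProductSpace ComplexConjugate Convolution

namespace Pool.Agent.W785.QR

noncomputable section

variable {T : ℝ → AA →L[ℂ] AA}

/-- the point with amplitude `c` and time `t` -/
def pt (c t : ℝ) : KK := (projIcc (0 : ℝ) 1 zero_le_one c, projIcc (-1 : ℝ) 0 (by norm_num) t)

theorem pt_cont : Continuous fun x : ℝ × ℝ => pt x.1 x.2 := by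
  unfold pt
  exact (continuous_projIcc.comp continuous_fst).prodMk (continuous_projIcc.comp continuous_snd)

theorem pt_fst {c t : ℝ} (hc : c ∈ Icc (0 : ℝ) 1) : (pt c t).1.1 = c := by
  show (projIcc (0 : ℝ) 1 zero_le_one c : ℝ) = c
  rw [projIcc_of_mem _ hc]

theorem pt_snd {c t : ℝ} (ht : t ∈ Icc (-1 : ℝ) 0) : (pt c t).2.1 = t := by
  show (projIcc (-1 : ℝ) 0 (by norm_num) t : ℝ) = t
  rw [projIcc_of_mem _ ht]

/-- the family of functions of time and frequency -/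
def av (b : E → A3) (c : ℝ) (j : Fin 3) (t : ℝ) (ξ : E) : ℂ := (b ξ j).val (pt c t)

theorem av_le (b : E → A3) (c : ℝ) (j : Fin 3) (t : ℝ) (ξ : E) : ‖av b c j t ξ‖ ≤ ‖b ξ‖ :=
  (AA.val_le _ _).trans (norm_le_pi_norm (b ξ) j)

theorem av_smeas {b : E → A3} (hb : StronglyMeasurable b) (c : ℝ) (j : Fin 3) (t : ℝ) :
    StronglyMeasurable (av b c j t) := by
  have h1 : StronglyMeasurable fun ξ => b ξ j := (continuous_apply j).comp_stronglyMeasurable hb
  have h2 := (AA.ev (pt c t)).continuous.comp_stronglyMeasurable h1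
  exact h2

theorem rap_av {b : E → A3} (hb : StronglyMeasurable b)
    (hd : ∀ j : ℕ, ∃ C : ℝ, ∀ ξ, ‖b ξ‖ * (1 + ‖ξ‖) ^ j ≤ C) (c : ℝ) (j : Fin 3) :
    Rap (av b c j) := by
  refine ⟨fun t _ => (av_smeas hb c j t).measurable, fun k => ?_⟩
  obtain ⟨C, hC⟩ := hd k
  refine ⟨C, fun t _ ξ => le_trans ?_ (hC ξ)⟩
  exact mul_le_mul_of_nonneg_right (av_le b c j t ξ) (by positivity)

theorem cont_av (b : E → A3) (c : ℝ) (j : Fin 3) (ξ : E) : Continuous fun t => av b c j t ξ := by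
  have h1 : Continuous fun t : ℝ => pt c t :=
    pt_cont.comp (continuous_const.prodMk continuous_id)
  exact (b ξ j).val_cont.comp h1

/-- the derivative of a Duhamel integral -/
theorem duhamel {g : ℝ → ℂ} (hg : Continuous g) (k t : ℝ) :
    HasDerivAt (fun t : ℝ => ∫ s in (-1 : ℝ)..t, ((Real.exp (-(k * (t - s))) : ℝ) : ℂ) * g s)
      (-(k : ℂ) * (∫ s in (-1 : ℝ)..t, ((Real.exp (-(k * (t - s))) : ℝ) : ℂ) * g s) + g t) t := by
  have e : ∀ t : ℝ, (∫ s in (-1 : ℝ)..t, ((Real.exp (-(k * (t - s))) : ℝ) : ℂ) * g s)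
      = ((Real.exp (-(k * t)) : ℝ) : ℂ)
        * ∫ s in (-1 : ℝ)..t, ((Real.exp (k * s) : ℝ) : ℂ) * g s := by
    intro t
    rw [← intervalIntegral.integral_const_mul]
    refine intervalIntegral.integral_congr fun s _ => ?_
    show ((Real.exp (-(k * (t - s))) : ℝ) : ℂ) * g s
      = ((Real.exp (-(k * t)) : ℝ) : ℂ) * (((Real.exp (k * s) : ℝ) : ℂ) * g s)
    rw [← mul_assoc, ← Complex.ofReal_mul, ← Real.exp_add]
    congr 3
    ring
  have hc : Continuous fun s : ℝ => ((Real.exp (k * s) : ℝ) : ℂ) * g s := by fun_prop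
  have h1 : HasDerivAt (fun t : ℝ => ∫ s in (-1 : ℝ)..t, ((Real.exp (k * s) : ℝ) : ℂ) * g s)
      (((Real.exp (k * t) : ℝ) : ℂ) * g t) t :=
    intervalIntegral.integral_hasDerivAt_right (hc.intervalIntegrable _ _)
      (hc.stronglyMeasurableAtFilter _ _) hc.continuousAt
  have h2 : HasDerivAt (fun t : ℝ => ((Real.exp (-(k * t)) : ℝ) : ℂ))
      ((-k * Real.exp (-(k * t)) : ℝ) : ℂ) t := by
    refine HasDerivAt.ofReal_comp ?_
    have h3 : HasDerivAt (fun t : ℝ => -(k * t)) (-k) t := by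
      have h3' := ((hasDerivAt_id t).const_mul k).neg
      rw [mul_one] at h3'
      exact h3'
    have := h3.exp
    rwa [mul_comm] at this
  have h4 := h2.mul h1
  have e' : (fun t : ℝ => ∫ s in (-1 : ℝ)..t, ((Real.exp (-(k * (t - s))) : ℝ) : ℂ) * g s)
      = fun t : ℝ => ((Real.exp (-(k * t)) : ℝ) : ℂ)
        * ∫ s in (-1 : ℝ)..t, ((Real.exp (k * s) : ℝ) : ℂ) * g s := funext e
  rw [e', e t]
  refine h4.congr_deriv ?_
  have h5 : ((Real.exp (-(k * t)) : ℝ) : ℂ) * (((Real.exp (k * t) : ℝ) : ℂ) * g t) = g t := by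
    rw [← mul_assoc, ← Complex.ofReal_mul, ← Real.exp_add, neg_add_cancel, Real.exp_zero,
      Complex.ofReal_one, one_mul]
  rw [h5]
  push_cast
  ring

theorem heat_deriv (c : ℝ) (A0 : Fin 3 → E → ℂ) (j : Fin 3) (t : ℝ) (ξ : E) :
    HasDerivAt (fun t => heat c A0 j t ξ) (-((ks ξ : ℝ) : ℂ) * heat c A0 j t ξ) t := by
  unfold heat
  have h3 : HasDerivAt (fun t : ℝ => -(4 * Real.pi ^ 2 * (t + 1) * ‖ξ‖ ^ 2)) (-ks ξ) t := by
    have h4 := ((((hasDerivAt_id t).add_const 1).const_mul (4 * Real.pi ^ 2)).mul_const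
      (‖ξ‖ ^ 2)).neg
    refine h4.congr_deriv ?_
    unfold ks; simp
  have h5 := (h3.exp.const_mul c).ofReal_comp.mul_const (A0 j ξ)
  refine h5.congr_deriv ?_
  push_cast
  ring

theorem av_eq (hT : IsT' T) {A0 : Fin 3 → E → ℂ} {b : E → A3}
    (heq : ∀ ξ, b ξ = VV A0 ξ - ker T 0 ξ (cv b b ξ)) {c : ℝ} (hc : c ∈ Icc (0 : ℝ) 1) {t : ℝ}
    (ht : t ∈ Icc (-1 : ℝ) 0) (j : Fin 3) (ξ : E) :
    av b c j t ξ = heat c A0 j t ξ - ∫ s in (-1 : ℝ)..t, ((Real.exp (-(ks ξ * (t - s))) : ℝ) : ℂ)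
      * (∑ k, ∑ l, sy ξ j k l • cv b b ξ k l).val (pt c s) := by
  have h1 : av b c j t ξ = (VV A0 ξ j).val (pt c t)
      - (T (ks ξ) (∑ k, ∑ l, sy ξ j k l • cv b b ξ k l)).val (pt c t) := by
    unfold av
    rw [heq ξ, Pi.sub_apply, AA.val_sub, ker_apply', add_zero]
  rw [h1, VV_val, pt_fst hc, pt_snd ht, hT.eq (ks ξ) (ks_nonneg ξ), pt_snd ht]
  rfl

theorem nl_eq {b : E → A3} {ξ : E} (hi : Integrable fun η => tens (b η) (b (ξ - η))) (c : ℝ)
    (j : Fin 3) (t : ℝ) :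
    (∑ k, ∑ l, sy ξ j k l • cv b b ξ k l).val (pt c t) = nl (av b c) j t ξ := by
  rw [AA.val_sum, nl]
  refine Finset.sum_congr rfl fun k _ => ?_
  rw [AA.val_sum]
  refine Finset.sum_congr rfl fun l _ => ?_
  rw [AA.val_smul, cv_val hi]
  rfl

theorem ode_av (hT : IsT' T) {A0 : Fin 3 → E → ℂ} {b : E → A3}
    (heq : ∀ ξ, b ξ = VV A0 ξ - ker T 0 ξ (cv b b ξ))
    (hi : ∀ ξ, Integrable fun η => tens (b η) (b (ξ - η))) {c : ℝ} (hc : c ∈ Icc (0 : ℝ) 1)
    {t : ℝ} (ht : t ∈ TI) (j : Fin 3) (ξ : E) :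
    HasDerivAt (fun s => av b c j s ξ)
      (-((4 * Real.pi ^ 2 * ‖ξ‖ ^ 2 : ℝ) : ℂ) * av b c j t ξ - nl (av b c) j t ξ) t := by
  set G := ∑ k, ∑ l, sy ξ j k l • cv b b ξ k l with hG
  have hg : Continuous fun s : ℝ => G.val (pt c s) :=
    G.val_cont.comp (pt_cont.comp (continuous_const.prodMk continuous_id))
  have h1 := (heat_deriv c A0 j t ξ).sub (duhamel hg (ks ξ) t)
  have ht' : t ∈ Icc (-1 : ℝ) 0 := Ioo_subset_Icc_self ht
  have h2 : (fun s => av b c j s ξ) =ᶠ[nhds t] ((fun t => heat c A0 j t ξ) -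
      fun t : ℝ => ∫ s in (-1 : ℝ)..t, ((Real.exp (-(ks ξ * (t - s))) : ℝ) : ℂ)
        * G.val (pt c s)) := by
    filter_upwards [isOpen_Ioo.mem_nhds ht] with s hs
    exact av_eq hT heq hc (Ioo_subset_Icc_self hs) j ξ
  refine (h1.congr_of_eventuallyEq h2).congr_deriv ?_
  rw [av_eq hT heq hc ht' j ξ, ← nl_eq (hi ξ), ← hG]
  unfold ks
  ring

theorem herm_av {b : E → A3} (hR : ∀ ξ, Rf b ξ = b ξ) (c : ℝ) (j : Fin 3) (t : ℝ) (ξ : E) :
    av b c j t (-ξ) = conj (av b c j t ξ) := by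
  have h1 : conj ((b (-ξ) j).val (pt c t)) = (b ξ j).val (pt c t) := by
    have := congrArg (fun f : A3 => (f j).val (pt c t)) (hR ξ)
    exact this
  show (b (-ξ) j).val (pt c t) = conj ((b ξ j).val (pt c t))
  rw [← h1, Complex.conj_conj]

theorem div_av {A0 : Fin 3 → E → ℂ} {Λ : ℝ} (h : Data A0 Λ) {b : E → A3}
    (heq : ∀ ξ, b ξ = VV A0 ξ - ker T 0 ξ (cv b b ξ)) (c : ℝ) (t : ℝ) (ξ : E) :
    ∑ j, ((ξ j : ℝ) : ℂ) * av b c j t ξ = 0 := by
  have h1 : ∀ j, av b c j t ξ = heat (pt c t).1.1 A0 j (pt c t).2.1 ξ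
      - ∑ k, ∑ l, sy ξ j k l * (T (ks ξ + 0) (cv b b ξ k l)).val (pt c t) := by
    intro j
    unfold av
    rw [heq ξ, Pi.sub_apply, AA.val_sub, ker_apply, VV_val]
    congr 1
  have h2 : ∑ j, ((ξ j : ℝ) : ℂ) * heat (pt c t).1.1 A0 j (pt c t).2.1 ξ = 0 := by
    have h3 := h.divfree ξ
    unfold heat
    have h4 : ∀ j, ((ξ j : ℝ) : ℂ) * ((((pt c t).1.1
        * Real.exp (-(4 * Real.pi ^ 2 * ((pt c t).2.1 + 1) * ‖ξ‖ ^ 2)) : ℝ) : ℂ) * A0 j ξ)
        = (((pt c t).1.1 * Real.exp (-(4 * Real.pi ^ 2 * ((pt c t).2.1 + 1) * ‖ξ‖ ^ 2)) : ℝ) : ℂ)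
          * (((ξ j : ℝ) : ℂ) * A0 j ξ) := fun j => by ring
    simp only [h4]
    rw [← Finset.mul_sum, h3, mul_zero]
  have h5 : ∑ j, ((ξ j : ℝ) : ℂ)
      * ∑ k, ∑ l, sy ξ j k l * (T (ks ξ + 0) (cv b b ξ k l)).val (pt c t) = 0 := by
    simp only [Finset.mul_sum]
    rw [Finset.sum_comm]
    refine Finset.sum_eq_zero fun k _ => ?_
    rw [Finset.sum_comm]
    refine Finset.sum_eq_zero fun l _ => ?_
    have h6 := sy_div ξ k l
    simp only [← mul_assoc]
    rw [← Finset.sum_mul, h6, zero_mul]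
  simp only [h1, mul_sub, Finset.sum_sub_distrib]
  rw [h2, h5, sub_zero]

/-- freezing the amplitude -/
def Sc (c : ℝ) : AA →L[ℂ] AA :=
  LinearMap.mkContinuous
    { toFun := fun f => AA.mk (fun p => f.val (projIcc (0 : ℝ) 1 zero_le_one c, p.2))
        (f.val_cont.comp (continuous_const.prodMk continuous_snd))
      map_add' := fun f g => rfl
      map_smul' := fun c f => rfl } 1 (by
      intro f
      rw [one_mul]
      refine (AA.norm_le (norm_nonneg f)).2 fun p => ?_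
      exact AA.val_le f _)

theorem Sc_val (c : ℝ) (f : AA) (p : KK) :
    (Sc c f).val p = f.val (projIcc (0 : ℝ) 1 zero_le_one c, p.2) := rfl

theorem Sc_norm (c : ℝ) (f : AA) : ‖Sc c f‖ ≤ ‖f‖ := by
  refine (AA.norm_le (norm_nonneg f)).2 fun p => ?_
  rw [Sc_val]
  exact AA.val_le f _

theorem Sc_cont (f : AA) : Continuous fun c => Sc c f := by
  refine AA.cont_of ?_
  simp only [Sc_val]
  exact f.val_cont.comp ((continuous_projIcc.comp continuous_fst).prodMk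
    (continuous_snd.comp continuous_snd))

theorem close_av {b : E → A3} (hbs : StronglyMeasurable b) (hbi : Integrable b) (c : ℝ) {η : ℝ}
    (hη : 0 < η) : ∃ δ : ℝ, 0 < δ ∧ ∀ c' : ℝ, |c' - c| < δ →
      ∀ t : ℝ, ∀ j, ∫ ξ, ‖av b c' j t ξ - av b c j t ξ‖ ≤ η := by
  have hm : ∀ c' : ℝ, StronglyMeasurable fun ξ => (fun j => Sc c' (b ξ j) - Sc c (b ξ j) : A3) := by
    intro c'
    refine smeas_pi fun j => ?_
    have h1 : StronglyMeasurable fun ξ => b ξ j := (continuous_apply j).comp_stronglyMeasurable hbs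
    exact ((Sc c').continuous.comp_stronglyMeasurable h1).sub
      ((Sc c).continuous.comp_stronglyMeasurable h1)
  have hn : ∀ c' ξ, ‖(fun j => Sc c' (b ξ j) - Sc c (b ξ j) : A3)‖ ≤ 2 * ‖b ξ‖ := by
    intro c' ξ
    refine (pi_norm_le_iff_of_nonneg (by positivity)).2 fun j => ?_
    have h1 := Sc_norm c' (b ξ j)
    have h2 := Sc_norm c (b ξ j)
    have h3 := norm_le_pi_norm (b ξ) j
    calc _ ≤ ‖Sc c' (b ξ j)‖ + ‖Sc c (b ξ j)‖ := norm_sub_le _ _
      _ ≤ 2 * ‖b ξ‖ := by linarith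
  have hlim : Filter.Tendsto (fun c' => ∫ ξ, ‖(fun j => Sc c' (b ξ j) - Sc c (b ξ j) : A3)‖)
      (nhds c) (nhds (∫ _ : E, (0 : ℝ))) := by
    refine tendsto_integral_filter_of_dominated_convergence (fun ξ => 2 * ‖b ξ‖)
      (Filter.Eventually.of_forall fun c' => (hm c').norm.aestronglyMeasurable)
      (Filter.Eventually.of_forall fun c' => Filter.Eventually.of_forall fun ξ => ?_)
      (hbi.norm.const_mul 2) (Filter.Eventually.of_forall fun ξ => ?_)
    · rw [norm_norm]; exact hn c' ξ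
    · have hc : Continuous fun c' => ‖(fun j => Sc c' (b ξ j) - Sc c (b ξ j) : A3)‖ := by
        refine continuous_norm.comp (continuous_pi fun j => ?_)
        exact (Sc_cont (b ξ j)).sub continuous_const
      have h1 := hc.tendsto c
      have h2 : ‖(fun j => Sc c (b ξ j) - Sc c (b ξ j) : A3)‖ = 0 := by
        rw [norm_eq_zero]
        funext j
        exact sub_self _
      rwa [h2] at h1
  rw [integral_zero] at hlim
  obtain ⟨δ, hδ, h1⟩ := Metric.eventually_nhds_iff.1 (hlim.eventually (gt_mem_nhds hη))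
  refine ⟨δ, hδ, fun c' hc' t j => ?_⟩
  have h2 := h1 (y := c') (by rw [Real.dist_eq]; exact hc')
  refine le_trans ?_ h2.le
  have h4 : ∀ ξ, ‖av b c' j t ξ - av b c j t ξ‖
      ≤ ‖(fun j => Sc c' (b ξ j) - Sc c (b ξ j) : A3)‖ := by
    intro ξ
    have h5 : av b c' j t ξ - av b c j t ξ = (Sc c' (b ξ j) - Sc c (b ξ j)).val (pt c t) := rfl
    rw [h5]
    exact (AA.val_le _ _).trans
      (norm_le_pi_norm (fun j => Sc c' (b ξ j) - Sc c (b ξ j) : A3) j)
  have h6 : Integrable fun ξ => (fun j => Sc c' (b ξ j) - Sc c (b ξ j) : A3) :=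
    (hbi.norm.const_mul 2).mono' (hm c').aestronglyMeasurable
      (Filter.Eventually.of_forall fun ξ => hn c' ξ)
  have h7 : Integrable fun ξ => av b c' j t ξ - av b c j t ξ :=
    h6.norm.mono' ((av_smeas hbs c' j t).sub (av_smeas hbs c j t)).aestronglyMeasurable
      (Filter.Eventually.of_forall h4)
  exact integral_mono h7.norm h6.norm h4

/-- existence -/
theorem exist_main : S_T → S_bound → S_decay → S_exist := by
  intro hT0 hb hd Λ hΛ
  obtain ⟨T, hT⟩ := exists_T hT0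
  refine ⟨4 * Real.exp (lamb Λ), by positivity, 1 / (288 * Real.exp (lamb Λ)), by positivity, ?_⟩
  intro A0 h ε hε hε1 hs
  obtain ⟨b, hbs, hbi, hdec, hR, heq, hclose⟩ := exists_b hb hd hT hΛ hε hε1 h hs
  obtain ⟨B, hB⟩ := hdec 0
  have hB' : ∀ ξ, ‖b ξ‖ ≤ B := fun ξ => by simpa using hB ξ
  have hi : ∀ ξ, Integrable fun η => tens (b η) (b (ξ - η)) := fun ξ =>
    (tens_int hbi hbi.1 (Filter.Eventually.of_forall hB') ξ).2
  refine ⟨av b, fun c hc => ⟨fun j => rap_av hbs hdec c j, fun j ξ => (cont_av b c j ξ).continuousOn,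
    fun j t ht ξ => ode_av hT heq hi hc ht j ξ, fun j t _ ξ => herm_av hR c j t ξ,
    fun t _ ξ => div_av h heq c t ξ⟩, fun c hc t ht j => ?_, fun c _ η hη => ?_⟩
  · have hV := VV_int h
    refine le_trans ?_ hclose
    have ht' : t ∈ Icc (-1 : ℝ) 0 := Ioo_subset_Icc_self ht
    have h4 : ∀ ξ, ‖av b c j t ξ - heat c A0 j t ξ‖ ≤ ‖b ξ - VV A0 ξ‖ := by
      intro ξ
      have h5 : av b c j t ξ - heat c A0 j t ξ = ((b ξ - VV A0 ξ) j).val (pt c t) := by
        rw [Pi.sub_apply, AA.val_sub, VV_val, pt_fst hc, pt_snd ht']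
        rfl
      rw [h5]
      exact (AA.val_le _ _).trans (norm_le_pi_norm _ j)
    have h8 : StronglyMeasurable fun ξ => heat c A0 j t ξ := by
      have h9 := av_smeas (VV_smeas h.meas) c j t
      have h10 : av (VV A0) c j t = fun ξ => heat c A0 j t ξ := by
        funext ξ
        show (VV A0 ξ j).val (pt c t) = _
        rw [VV_val, pt_fst hc, pt_snd ht']
      rwa [h10] at h9
    have h7 : Integrable fun ξ => av b c j t ξ - heat c A0 j t ξ :=
      (hbi.sub hV).norm.mono' ((av_smeas hbs c j t).sub h8).aestronglyMeasurable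
        (Filter.Eventually.of_forall h4)
    exact integral_mono h7.norm (hbi.sub hV).norm h4
  · obtain ⟨δ, hδ, h1⟩ := close_av hbs hbi c hη
    exact ⟨δ, hδ, fun c' _ hc' t _ j => h1 c' hc' t j⟩

end

end Pool.Agent.W785.QR
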