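import Mathlib
import Pool.Agent.W785.QR.Ex10
import Pool.Agent.W52.QR.Alg
import Pool.Agent.W52.QR.Boot
import Pool.Agent.W52.QR.Conv
import Pool.Agent.W52.QR.Dec
import Pool.Agent.W52.QR.Dphi
import Pool.Agent.W52.QR.End
import Pool.Agent.W52.QR.Fam
import Pool.Agent.W52.QR.L2
import Pool.Agent.W688.QR.Lin
import Pool.Agent.W688.QR.PhiS
import Pool.Agent.W688.QR.Reg
import Pool.Agent.W374.QR.Cauchy
import Pool.Agent.W374.QR.Cos
import Pool.Agent.W374.QR.Dat1
import Pool.Agent.W374.QR.Dat2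
import Pool.Agent.W374.QR.Dat3
import Pool.Agent.W374.QR.Jump
import Pool.Agent.W374.QR.Runge

set_option autoImplicit false

open MeasureTheory Set

namespace Pool.Agent.W785.QR

theorem th_lin : S_lin := Pool.Agent.W688.QR.Lin.main Pool.Agent.W374.QR.Cauchy.main
  Pool.Agent.W374.QR.Runge.main Pool.Agent.W374.QR.Jump.main Pool.Agent.W374.QR.Cos.main.1

theorem th_mono : S_mono := Pool.Agent.W52.QR.Alg.main.1
theorem th_add : S_add := Pool.Agent.W52.QR.Alg.main.2.1
theorem th_symb : S_symb := Pool.Agent.W52.QR.Alg.main.2.2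
theorem th_conv : S_conv := Pool.Agent.W52.QR.Conv.main

theorem th_boot : S_boot := Pool.Agent.W52.QR.Boot.main th_mono th_add th_symb th_conv

theorem th_phi : S_phi := Pool.Agent.W688.QR.PhiS.main th_mono th_symb

theorem th_reg : S_reg := Pool.Agent.W688.QR.Reg.main th_mono th_add th_symb th_conv th_boot
  Pool.Agent.W52.QR.Dphi.main th_phi Pool.Agent.W52.QR.Prod.main.1 Pool.Agent.W52.QR.Prod.main.2
  Pool.Agent.W52.QR.L2.main

theorem th_exist : S_exist := exist_main Pool.Agent.W374.QR.Cos.main.2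
  Pool.Agent.W52.QR.Dec.main.1 Pool.Agent.W52.QR.Dec.main.2

theorem th_fam : S_fam := Pool.Agent.W52.QR.Fam.main th_exist Pool.Agent.W374.QR.Dat1.main
  Pool.Agent.W374.QR.Dat2.main Pool.Agent.W374.QR.Dat3.main th_reg

theorem th_end : S_end := Pool.Agent.W52.QR.End.main th_lin th_fam

end Pool.Agent.W785.QR
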